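import Pool.Agent.helper51.PC.Spec

set_option autoImplicit false
set_option linter.style.haveILetI false

namespace Pool.Agent.PC

universe u

theorem DIM_int {R S : Type u} [CommRing R] [CommRing S] [Algebra R S] [Algebra.IsIntegral R S]
    (hinj : Function.Injective (algebraMap R S)) : ringKrullDim R = ringKrullDim S := by
  apply le_antisymm
  · unfold ringKrullDim
    apply iSup_le
    intro l
    obtain ⟨P, _, hP, hPc⟩ := Ideal.exists_ideal_over_prime_of_isIntegral (S := S) l.head.asIdeal ⊥
      (by
        rw [← RingHom.ker_eq_comap_bot, (RingHom.injective_iff_ker_eq_bot _).1 hinj]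
        exact bot_le)
    haveI := hP
    haveI : P.LiesOver l.head.asIdeal := ⟨hPc.symm⟩
    obtain ⟨L, hL, _, _⟩ := Ideal.exists_ltSeries_of_hasGoingUp l P
    rw [← hL]
    exact Order.LTSeries.length_le_krullDim L
  · apply Order.krullDim_le_of_strictMono (PrimeSpectrum.comap (algebraMap R S))
    intro P Q h
    exact Ideal.IsIntegral.comap_lt_comap (R := R) (I := P.asIdeal) (J := Q.asIdeal) h

theorem DIM : DIM_stmt.{u} := by
  intro k _ n d hint
  haveI := hint
  rw [DIM_int (R := RR k n d) (S := AA k n) Subtype.val_injective,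
    MvPolynomial.ringKrullDim_of_isNoetherianRing]
  simp

end Pool.Agent.PC
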