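import Pool.Agent.helper51.PC.Spec

set_option autoImplicit false
set_option linter.style.haveILetI false

namespace Pool.Agent.PC

universe u

open IsDedekindDomain WithZero

/-- the additive valuation -/
noncomputable def EXT_v {B K : Type u} [CommRing B] [IsDedekindDomain B] [Field K] [Algebra B K]
    [IsFractionRing B K] (w : HeightOneSpectrum B) (x : K) : ℤ := -(WithZero.log (w.valuation K x))

section
variable {B K : Type u} [CommRing B] [IsDedekindDomain B] [Field K] [Algebra B K]
    [IsFractionRing B K] (w : HeightOneSpectrum B)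

theorem EXT_ne {x : K} (hx : x ≠ 0) : w.valuation K x ≠ 0 := (Valuation.ne_zero_iff _).2 hx

theorem EXT_mul {x y : K} (hx : x ≠ 0) (hy : y ≠ 0) : EXT_v w (x * y) = EXT_v w x + EXT_v w y := by
  unfold EXT_v
  rw [map_mul, WithZero.log_mul (EXT_ne w hx) (EXT_ne w hy)]
  ring

theorem EXT_le {x y : K} (hx : x ≠ 0) (hy : y ≠ 0) :
    EXT_v w x ≤ EXT_v w y ↔ w.valuation K y ≤ w.valuation K x := by
  unfold EXT_v
  rw [neg_le_neg_iff, WithZero.log_le_log (EXT_ne w hy) (EXT_ne w hx)]

theorem EXT_one : EXT_v w (1 : K) = 0 := by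
  unfold EXT_v
  simp

theorem EXT_nonneg {x : K} (hx : x ≠ 0) : 0 ≤ EXT_v w x ↔ w.valuation K x ≤ 1 := by
  rw [← EXT_one (K := K) w, EXT_le w one_ne_zero hx, map_one]

theorem EXT_nonpos {x : K} (hx : x ≠ 0) : EXT_v w x ≤ 0 ↔ 1 ≤ w.valuation K x := by
  rw [← EXT_one (K := K) w, EXT_le w hx one_ne_zero, map_one]

theorem EXT_dval : DVal (EXT_v (K := K) w) where
  mul _ _ hx hy := EXT_mul w hx hy
  add x y hx hy hxy := by
    have h1 := (w.valuation K).map_add x y
    rcases le_max_iff.1 h1 with h | h
    · exact (min_le_left _ _).trans ((EXT_le w hx hxy).2 h)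
    · exact (min_le_right _ _).trans ((EXT_le w hy hxy).2 h)
  one := by
    obtain ⟨π, hπ⟩ := w.valuation_exists_uniformizer K
    refine ⟨π, ?_, ?_⟩
    · rintro rfl
      rw [map_zero] at hπ
      exact WithZero.exp_ne_zero hπ.symm
    · unfold EXT_v
      rw [hπ, WithZero.log_exp, neg_neg]

end

theorem EXT : EXT_stmt.{u} := by
  intro F K _ _ _ _ _ O hO
  haveI : IsDedekindDomain (integralClosure O K) := integralClosure.isDedekindDomain O F K
  haveI : IsFractionRing (integralClosure O K) K := integralClosure.isFractionRing_of_finite_extension F K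
  have hinj : Function.Injective (algebraMap O (integralClosure O K)) := by
    have h1 : Function.Injective (algebraMap O K) := by
      rw [IsScalarTower.algebraMap_eq O F K]
      exact (algebraMap F K).injective.comp (IsFractionRing.injective O F)
    rw [IsScalarTower.algebraMap_eq O (integralClosure O K) K, RingHom.coe_comp] at h1
    exact Function.Injective.of_comp h1
  obtain ⟨Q, hQ, hQm⟩ := Ideal.exists_ideal_over_maximal_of_isIntegral
    (S := integralClosure O K) (IsLocalRing.maximalIdeal O)
    (by rw [(RingHom.injective_iff_ker_eq_bot _).1 hinj]; exact bot_le)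
  have hQne : Q ≠ ⊥ := by
    rintro rfl
    rw [← RingHom.ker_eq_comap_bot, (RingHom.injective_iff_ker_eq_bot _).1 hinj] at hQm
    exact IsDiscreteValuationRing.not_a_field O hQm.symm
  let w : HeightOneSpectrum (integralClosure O K) := ⟨Q, hQ.isPrime, hQne⟩
  have halg : ∀ x : O, algebraMap F K x = algebraMap (integralClosure O K) K (algebraMap O (integralClosure O K) x) := by
    intro x
    rw [← IsScalarTower.algebraMap_apply O (integralClosure O K) K]
    exact (IsScalarTower.algebraMap_apply O F K x).symm
  have hpos : ∀ x : O, x ∈ IsLocalRing.maximalIdeal O → (x : F) ≠ 0 → 0 < EXT_v w (algebraMap F K (x : F)) := by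
    intro x hx hx0
    have hx1 : algebraMap F K (x : F) ≠ 0 := by simpa using hx0
    rw [← not_le, EXT_nonpos w hx1, not_le, halg x, w.valuation_lt_one_iff_mem]
    show algebraMap O (integralClosure O K) x ∈ Q
    rw [← Ideal.mem_comap, hQm]
    exact hx
  have hint : ∀ b : integralClosure O K, ∃ P : Polynomial F, P.Monic ∧ (∀ i, P.coeff i ∈ O) ∧
      Polynomial.aeval (b : K) P = 0 := by
    intro b
    obtain ⟨P, hP1, hP2⟩ := b.2
    refine ⟨P.map (algebraMap O F), hP1.map _, fun i => ?_, ?_⟩
    · rw [Polynomial.coeff_map]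
      exact (P.coeff i).2
    · rw [Polynomial.aeval_map_algebraMap]
      exact hP2
  refine ⟨EXT_v w, EXT_dval w, ?_, ?_, ?_⟩
  · intro x
    by_cases hx0 : x = 0
    · subst hx0
      simp only [map_zero]
      exact ⟨fun _ => Or.inl rfl, fun _ => O.zero_mem⟩
    have hx1 : algebraMap F K x ≠ 0 := by simpa using hx0
    constructor
    · intro hx
      right
      rw [EXT_nonneg w hx1]
      have := halg ⟨x, hx⟩
      rw [this]
      exact w.valuation_le_one _
    · intro h
      by_contra hx
      have hxi : x⁻¹ ∈ O := (O.mem_or_inv_mem x).resolve_left hx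
      have hm : (⟨x⁻¹, hxi⟩ : O) ∈ IsLocalRing.maximalIdeal O := by
        rw [IsLocalRing.mem_maximalIdeal, mem_nonunits_iff]
        intro hu
        obtain ⟨z, hz⟩ := hu.exists_right_inv
        have hz2 : x⁻¹ * (z : F) = 1 := congrArg Subtype.val hz
        have hz3 : (z : F) = x := by
          field_simp at hz2
          exact hz2
        exact hx (hz3 ▸ z.2)
      have h2 := hpos ⟨x⁻¹, hxi⟩ hm (inv_ne_zero hx0)
      have h3 : EXT_v w (algebraMap F K x⁻¹) + EXT_v w (algebraMap F K x) = 0 := by
        rw [← EXT_mul w (by simpa using hx0) hx1, ← map_mul, inv_mul_cancel₀ hx0, map_one, EXT_one]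
      rcases h with h | h
      · exact hx1 h
      · have h2' : 0 < EXT_v w (algebraMap F K x⁻¹) := h2
        omega
  · obtain ⟨x, hx, hx0⟩ := Submodule.exists_mem_ne_zero_of_ne_bot (IsDiscreteValuationRing.not_a_field O)
    have hx1 : (x : F) ≠ 0 := fun h => hx0 (Subtype.ext h)
    exact ⟨x, hx1, hpos x hx hx1⟩
  · intro y hy
    by_cases hy0 : y = 0
    · refine ⟨0, 1, ?_, ?_, one_ne_zero, EXT_one w, by rw [hy0]; simp⟩
      · exact hint 0
      · exact hint 1
    · have hy1 : w.valuation K y ≤ 1 := (EXT_nonneg w hy0).1 (hy.resolve_left hy0)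
      obtain ⟨b, c, hbc⟩ := HeightOneSpectrum.exists_primeCompl_mul_eq_of_integer w y hy1
      have hc0 : ((c : integralClosure O K) : K) ≠ 0 := by
        intro h
        have h2 : (c : integralClosure O K) = 0 := Subtype.ext h
        exact c.2 (by rw [h2]; exact Q.zero_mem)
      refine ⟨(b : K), ((c : integralClosure O K) : K), hint b, hint c, hc0, ?_, ?_⟩
      · have h1 : w.valuation K ((c : integralClosure O K) : K) = 1 :=
          w.valuation_eq_one_iff_notMem.2 c.2
        unfold EXT_v
        rw [h1, WithZero.log_one, neg_zero]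
      · rw [eq_div_iff hc0]
        exact hbc

end Pool.Agent.PC
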