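import Pool.Agent.helper27.PC.RR

/-!
# PC project: the character values of the standard elements (module `CH`)
-/

namespace Pool.Agent.helper31.PC

open Module Finset Polynomial Pool.Agent.helper27.PC

section gen

variable {K : Type*} [Field K]

/-- `ψ'` is `ψ` acting after the first `n` letters -/
def ShN (n : ℕ) (ψ ψ' : Module.End K (List Lab →₀ K)) : Prop :=
  ∀ p : List Lab, p.length = n → ∀ u : List Lab →₀ K,
    ψ' (Finsupp.mapDomain (fun w => p ++ w) u) = Finsupp.mapDomain (fun w => p ++ w) (ψ u)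

theorem ShN_of (ψ : ℕ → Module.End K (List Lab →₀ K)) (h : ∀ i, Sh (ψ i) (ψ (i + 1))) (n : ℕ) :
    ShN n (ψ 0) (ψ n) := by
  induction n with
  | zero =>
    intro p hp u
    rw [List.length_eq_zero_iff] at hp
    subst hp
    have : (fun w : List Lab => [] ++ w) = id := rfl
    rw [this, Finsupp.mapDomain_id, Finsupp.mapDomain_id]
  | succ n ih =>
    intro p hp u
    obtain ⟨c, q, rfl⟩ : ∃ c q, p = c :: q := by
      cases p with
      | nil => simp at hp
      | cons c q => exact ⟨c, q, rfl⟩
    have e : ∀ u : List Lab →₀ K, Finsupp.mapDomain (fun w => (c :: q) ++ w) u =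
        Finsupp.mapDomain (List.cons c) (Finsupp.mapDomain (fun w => q ++ w) u) := by
      intro u
      rw [← Finsupp.mapDomain_comp]
      rfl
    rw [e, h n, ih q (by simpa using hp), e]

theorem mul_apply_pre {n : ℕ} {φ ψ ψ' : Module.End K (List Lab →₀ K)} (h : Pre n φ)
    (hs : ShN n ψ ψ') {p : List Lab} (hp : p.length = n) (z : List Lab) :
    (φ * ψ') (Finsupp.single (p ++ z) 1) (p ++ z) =
      φ (Finsupp.single p 1) p * ψ (Finsupp.single z 1) z := by
  have h1 := hs p hp (Finsupp.single z 1)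
  rw [Finsupp.mapDomain_single] at h1
  rw [Module.End.mul_apply, h1]
  have key : ∀ f : List Lab →₀ K, φ (Finsupp.mapDomain (fun w => p ++ w) f) (p ++ z) =
      φ (Finsupp.single p 1) p * f z := by
    intro f
    induction f using Finsupp.induction_linear with
    | zero => simp
    | add f g hf hg =>
      rw [Finsupp.mapDomain_add, map_add, Finsupp.add_apply, hf, hg, Finsupp.add_apply, mul_add]
    | single u c =>
      rw [Finsupp.mapDomain_single]
      have : (Finsupp.single (p ++ u) c : List Lab →₀ K) = c • Finsupp.single (p ++ u) 1 := by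
        rw [Finsupp.smul_single, smul_eq_mul, mul_one]
      rw [this, map_smul, Finsupp.smul_apply, (h p hp).2 u, Finsupp.single_apply]
      by_cases huz : u = z
      · subst huz
        rw [Finsupp.mapDomain_apply (fun a b h => List.append_cancel_right h), if_pos rfl,
          smul_eq_mul, mul_comm]
      · rw [if_neg huz, mul_zero]
        have : Finsupp.mapDomain (fun w => w ++ u) (φ (Finsupp.single p 1)) (p ++ z) = 0 := by
          by_contra hne
          have h2 := Finsupp.mapDomain_support (Finsupp.mem_support_iff.2 hne)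
          rw [mem_image] at h2
          obtain ⟨w, hw, e⟩ := h2
          have hl := (h p hp).1 w (Finsupp.mem_support_iff.1 hw)
          exact huz (List.append_inj e (by rw [hl, hp])).2
        rw [this, smul_zero]
  exact key _

theorem trP_mul {n : ℕ} {φ ψ ψ' : Module.End K (List Lab →₀ K)} (h : Pre n φ) (hs : ShN n ψ ψ')
    (k : ℕ) (S S' : St) :
    trP (n + k) S S' (φ * ψ') = ∑ M ∈ ends n S, trP n S M φ * trP k M S' ψ := by
  unfold trP
  rw [sum_paths_add]
  apply sum_congr rfl
  intro M _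
  rw [sum_mul_sum]
  apply sum_congr rfl
  intro p hp
  apply sum_congr rfl
  intro z _
  exact mul_apply_pre h hs (length_of_mem_paths hp) z

/-- adding ribbons of the sizes in the list, in this order -/
noncomputable def fx (x : Lab → K) : List ℕ → (St →₀ K) →ₗ[K] (St →₀ K)
  | [] => LinearMap.id
  | a :: l => fx x l ∘ₗ Rib x a

theorem apply_expand (φ : (St →₀ K) →ₗ[K] (St →₀ K)) (u : St →₀ K) (S' : St) :
    φ u S' = u.sum fun M c => c * φ (Finsupp.single M 1) S' := by
  conv_lhs => rw [← Finsupp.sum_single u]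
  rw [map_finsuppSum, Finsupp.sum_apply]
  apply Finsupp.sum_congr
  intro M _
  rw [show (Finsupp.single M (u M) : St →₀ K) = (u M) • Finsupp.single M 1 by
    rw [Finsupp.smul_single, smul_eq_mul, mul_one], map_smul, Finsupp.smul_apply, smul_eq_mul]

theorem trP_of_not_mem (n : ℕ) (S M : St) (φ : Module.End K (List Lab →₀ K)) (h : M ∉ ends n S) :
    trP n S M φ = 0 := by
  unfold trP
  apply sum_eq_zero
  intro w hw
  exact absurd (end_mem_ends hw) h

/-- block operators -/
structure BD (v : K) (m : ℕ) (D : ℕ → ℕ → Module.End K (List Lab →₀ K)) : Prop where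
  sh : ∀ k a, Sh (D k a) (D (k + 1) a)
  pre : ∀ a, 1 ≤ a → Pre a (D 0 a)
  stab : ∀ k a n S S', Stab (paths n S S') (D k a)
  tr : ∀ a, 1 ≤ a → ∀ S S', trP a S S' (D 0 a) =
    v ^ (a - 1) * Rib (xK v m) a (Finsupp.single S 1) S'

/-- product of blocks -/
noncomputable def mB (D : ℕ → ℕ → Module.End K (List Lab →₀ K)) :
    ℕ → List ℕ → Module.End K (List Lab →₀ K)
  | _, [] => 1
  | k, a :: l => D k a * mB D (k + a) l

/-- product of blocks in the opposite order -/
noncomputable def mB' (D : ℕ → ℕ → Module.End K (List Lab →₀ K)) :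
    ℕ → List ℕ → Module.End K (List Lab →₀ K)
  | _, [] => 1
  | k, a :: l => mB' D (k + a) l * D k a

variable {v : K} {m : ℕ} {D : ℕ → ℕ → Module.End K (List Lab →₀ K)}

theorem mB_sh (hD : BD v m D) (l : List ℕ) (k : ℕ) : Sh (mB D k l) (mB D (k + 1) l) := by
  induction l generalizing k with
  | nil => exact Sh.one
  | cons a l ih =>
    rw [mB, mB, show k + 1 + a = k + a + 1 by ring]
    exact (hD.sh k a).mul (ih _)

theorem mB'_sh (hD : BD v m D) (l : List ℕ) (k : ℕ) : Sh (mB' D k l) (mB' D (k + 1) l) := by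
  induction l generalizing k with
  | nil => exact Sh.one
  | cons a l ih =>
    rw [mB', mB', show k + 1 + a = k + a + 1 by ring]
    exact (ih _).mul (hD.sh k a)

theorem mB_stab (hD : BD v m D) (l : List ℕ) (k n : ℕ) (S S' : St) :
    Stab (paths n S S') (mB D k l) := by
  induction l generalizing k with
  | nil => exact Stab.one _
  | cons a l ih => exact (hD.stab k a n S S').mul (ih _)

theorem mB'_stab (hD : BD v m D) (l : List ℕ) (k n : ℕ) (S S' : St) :
    Stab (paths n S S') (mB' D k l) := by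
  induction l generalizing k with
  | nil => exact Stab.one _
  | cons a l ih => exact (ih _).mul (hD.stab k a n S S')

theorem trP_zero (S S' : St) :
    trP 0 S S' (1 : Module.End K (List Lab →₀ K)) = (Finsupp.single S (1 : K)) S' := by
  unfold trP
  rw [paths, Finsupp.single_apply]
  split_ifs
  · rw [sum_singleton, Module.End.one_apply, Finsupp.single_eq_same]
  · simp

/-- the trace step -/
theorem step_sum (hD : BD v m D) {a : ℕ} (ha : 1 ≤ a) (hv : v ≠ 0) (S S' : St) (f : St → K) (c : K)
    (x : (St →₀ K) →ₗ[K] (St →₀ K)) (hf : ∀ M, f M = c * x (Finsupp.single M 1) S') :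
    ∑ M ∈ ends a S, trP a S M (D 0 a) * f M =
      (v ^ (a - 1) * c) * x (Rib (xK v m) a (Finsupp.single S 1)) S' := by
  rw [apply_expand x, Finsupp.mul_sum]
  unfold Finsupp.sum
  symm
  have h1 : ∀ M, v ^ (a - 1) * c * ((Rib (xK v m) a (Finsupp.single S 1)) M *
      x (Finsupp.single M 1) S') = trP a S M (D 0 a) * f M := by
    intro M
    rw [hD.tr a ha, hf]; ring
  simp only [h1]
  apply sum_subset
  · intro M hM
    by_contra h3
    have h4 := trP_of_not_mem a S M (D 0 a) h3
    rw [hD.tr a ha] at h4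
    rcases mul_eq_zero.1 h4 with h5 | h5
    · exact pow_ne_zero _ hv h5
    · exact (Finsupp.mem_support_iff.1 hM) h5
  · intro M _ hM
    rw [hD.tr a ha, Finsupp.notMem_support_iff.1 hM]; simp

theorem tr_mB (hD : BD v m D) (hv : v ≠ 0) (l : List ℕ) (hl : ∀ a ∈ l, 1 ≤ a) (S S' : St) :
    trP l.sum S S' (mB D 0 l) =
      v ^ ((l.map (· - 1)).sum) * fx (xK v m) l (Finsupp.single S 1) S' := by
  induction l generalizing S with
  | nil =>
    rw [mB, List.sum_nil, trP_zero, fx]
    simp
  | cons a l ih =>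
    have ha : 1 ≤ a := hl a (by simp)
    rw [mB, List.sum_cons, zero_add, trP_mul (hD.pre a ha)
      (ShN_of (fun i => mB D i l) (fun i => mB_sh hD l i) a), List.map_cons, List.sum_cons, pow_add,
      fx, LinearMap.comp_apply]
    exact step_sum hD ha hv S S' _ _ _ fun M => ih (fun b hb => hl b (by simp [hb])) M

theorem tr_mB' (hD : BD v m D) (hv : v ≠ 0) (l : List ℕ) (hl : ∀ a ∈ l, 1 ≤ a) (S S' : St) :
    trP l.sum S S' (mB' D 0 l) =
      v ^ ((l.map (· - 1)).sum) * fx (xK v m) l (Finsupp.single S 1) S' := by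
  induction l generalizing S with
  | nil =>
    rw [mB', List.sum_nil, trP_zero, fx]
    simp
  | cons a l ih =>
    have ha : 1 ≤ a := hl a (by simp)
    have e : trP (a + l.sum) S S' (mB' D a l * D 0 a) =
        trP (a + l.sum) S S' (D 0 a * mB' D a l) := by
      rw [trP_eq, trP_eq, trF_eq, trF_eq, matF_mul (hD.stab 0 a _ S S'),
        matF_mul (mB'_stab hD l a _ S S'), Matrix.trace_mul_comm]
    rw [mB', List.sum_cons, zero_add, e, trP_mul (hD.pre a ha)
      (ShN_of (fun i => mB' D i l) (fun i => mB'_sh hD l i) a), List.map_cons, List.sum_cons, pow_add,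
      fx, LinearMap.comp_apply]
    exact step_sum hD ha hv S S' _ _ _ fun M => ih (fun b hb => hl b (by simp [hb])) M

/-! ### the two block operators -/

/-- `X_k T_k ... T_{k+a-2}` -/
noncomputable def D1 (v : K) (m k a : ℕ) : Module.End K (List Lab →₀ K) :=
  Xop (xK v m) k * asc (Top v (xK v m)) k (a - 1)

/-- the product `t_{i+n-1} ... t_i` -/
def dsc {R : Type*} [Ring R] (t : ℕ → R) (i n : ℕ) : R := ((List.range' i n).reverse.map t).prod

theorem dsc_zero {R : Type*} [Ring R] (t : ℕ → R) (i : ℕ) : dsc t i 0 = 1 := rfl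

theorem dsc_succ' {R : Type*} [Ring R] (t : ℕ → R) (i n : ℕ) :
    dsc t i (n + 1) = t (i + n) * dsc t i n := by
  unfold dsc
  rw [List.range'_concat, List.reverse_append, List.map_append, List.prod_append]
  simp

theorem asc_add {R : Type*} [Ring R] (t : ℕ → R) (i m n : ℕ) :
    asc t i (m + n) = asc t i m * asc t (i + m) n := by
  induction n with
  | zero => rw [asc_zero, mul_one, add_zero]
  | succ n ih => rw [← add_assoc, asc_succ', ih, asc_succ', mul_assoc, add_assoc]

theorem dsc_add {R : Type*} [Ring R] (t : ℕ → R) (i m n : ℕ) :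
    dsc t i (m + n) = dsc t (i + m) n * dsc t i m := by
  induction n with
  | zero => rw [dsc_zero, one_mul, add_zero]
  | succ n ih => rw [← add_assoc, dsc_succ', ih, dsc_succ', mul_assoc, add_assoc]

/-- `T_{k+a-2} ... T_k X_k` -/
noncomputable def D2 (v : K) (m k a : ℕ) : Module.End K (List Lab →₀ K) :=
  dsc (Top v (xK v m)) k (a - 1) * Xop (xK v m) k

theorem range'_succ_shift (k b : ℕ) : List.range' (k + 1) b = (List.range' k b).map (· + 1) := by
  apply List.ext_getElem
  · simp
  · intro i h1 h2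
    simp only [List.getElem_range', List.getElem_map]
    omega

theorem asc_stab {n : ℕ} {S S' : St} (hv : Generic v) (i k : ℕ) :
    Stab (paths n S S') (asc (Top v (xK v m)) i k) ∧
      matF (paths n S S') (asc (Top v (xK v m)) i k) =
        asc (fun j => matF (paths n S S') (Top v (xK v m) j)) i k :=
  matF_prod _ _ fun j _ => Stab_Top (xK_ok hv m) _ S S' j

theorem dsc_stab {n : ℕ} {S S' : St} (hv : Generic v) (i k : ℕ) :
    Stab (paths n S S') (dsc (Top v (xK v m)) i k) ∧
      matF (paths n S S') (dsc (Top v (xK v m)) i k) =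
        dsc (fun j => matF (paths n S S') (Top v (xK v m) j)) i k :=
  matF_prod _ _ fun j _ => Stab_Top (xK_ok hv m) _ S S' j

theorem D1_eq (v : K) (m : ℕ) {a : ℕ} (ha : 1 ≤ a) : D1 v m 0 a = opW v m (List.range a) := by
  obtain ⟨b, rfl⟩ : ∃ b, a = b + 1 := ⟨a - 1, by omega⟩
  rw [opW_range, D1, Nat.add_sub_cancel]

theorem D2_eq (v : K) (m : ℕ) {a : ℕ} (ha : 1 ≤ a) :
    D2 v m 0 a = opW v m (List.range a).reverse := by
  obtain ⟨b, rfl⟩ : ∃ b, a = b + 1 := ⟨a - 1, by omega⟩
  rw [opW_range_rev, D2, Nat.add_sub_cancel, dsc]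

end gen

theorem BD1 {K : Type} [Field K] {v : K} (hv : Generic v) (m : ℕ) : BD v m (D1 v m) := by
  refine ⟨?_, ?_, ?_, ?_⟩
  · intro k a
    refine (Sh_Xop _ k).mul ?_
    have h1 := Sh_prod (fun i => Top v (xK v m) i) (fun i => Top v (xK v m) (i + 1))
      (List.range' k (a - 1)) fun i _ => Sh_Top v _ i
    have e : asc (Top v (xK v m)) (k + 1) (a - 1) =
        ((List.range' k (a - 1)).map fun i => Top v (xK v m) (i + 1)).prod := by
      unfold asc
      rw [range'_succ_shift, List.map_map]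
      rfl
    rw [e]; exact h1
  · intro a ha
    refine (Pre_Xop _ (by omega)).mul (Pre_prod _ _ fun i hi => Pre_Top v _ ?_)
    rw [List.mem_range'_1] at hi
    omega
  · intro k a n S S'
    exact (Stab_Xop _ _).mul (asc_stab hv k (a - 1)).1
  · intro a ha S S'
    rw [D1_eq v m ha]
    exact (RR K v hv m a S S' ha).1

theorem BD2 {K : Type} [Field K] {v : K} (hv : Generic v) (m : ℕ) : BD v m (D2 v m) := by
  refine ⟨?_, ?_, ?_, ?_⟩
  · intro k a
    refine Sh.mul ?_ (Sh_Xop _ k)
    have h1 := Sh_prod (fun i => Top v (xK v m) i) (fun i => Top v (xK v m) (i + 1))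
      (List.range' k (a - 1)).reverse fun i _ => Sh_Top v _ i
    have e : dsc (Top v (xK v m)) (k + 1) (a - 1) =
        ((List.range' k (a - 1)).reverse.map fun i => Top v (xK v m) (i + 1)).prod := by
      unfold dsc
      rw [range'_succ_shift, ← List.map_reverse, List.map_map]
      rfl
    rw [e]; exact h1
  · intro a ha
    refine Pre.mul (Pre_prod _ _ fun i hi => Pre_Top v _ ?_) (Pre_Xop _ (by omega))
    rw [List.mem_reverse, List.mem_range'_1] at hi
    omega
  · intro k a n S S'
    exact (dsc_stab hv k (a - 1)).1.mul (Stab_Xop _ _)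
  · intro a ha S S'
    rw [D2_eq v m ha]
    exact (RR K v hv m a S S' ha).2

section words

variable {K : Type} [Field K] {v : K}

theorem opW_append (v : K) (m : ℕ) (l₁ l₂ : List ℕ) :
    opW v m (l₁ ++ l₂) = opW v m l₁ * opW v m l₂ := by
  unfold opW; rw [List.map_append, List.prod_append]

theorem opW_stab (hv : Generic v) (m n : ℕ) (S S' : St) (l : List ℕ) :
    Stab (paths n S S') (opW v m l) :=
  (matF_prod _ _ fun i _ => Stab_op hv m n S S' i).1

theorem opW_range' (v : K) (m n : ℕ) : opW v m (List.range' 1 n) = asc (Top v (xK v m)) 0 n := by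
  unfold opW asc
  rw [range'_one, List.map_map]
  rfl

theorem opW_range'_rev (v : K) (m n : ℕ) :
    opW v m (List.range' 1 n).reverse = dsc (Top v (xK v m)) 0 n := by
  unfold opW dsc
  rw [range'_one, ← List.map_reverse, List.map_map]
  rfl

/-- `T_{k-1} ... T_0 X_0 T_0 ... T_{k-1} = X_k` -/
theorem core {R : Type*} [Ring R] (t x : ℕ → R) (k : ℕ) (h : ∀ i < k, t i * x i * t i = x (i + 1)) :
    dsc t 0 k * x 0 * asc t 0 k = x k := by
  induction k with
  | zero => rw [dsc_zero, asc_zero, one_mul, mul_one]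
  | succ k ih =>
    rw [dsc_succ', asc_succ', zero_add]
    calc t k * dsc t 0 k * x 0 * (asc t 0 k * t k) = t k * (dsc t 0 k * x 0 * asc t 0 k) * t k := by
          noncomm_ring
      _ = t k * x k * t k := by rw [ih fun i hi => h i (by omega)]
      _ = x (k + 1) := h k (by omega)

theorem TXT_mat (hv : Generic v) (m n : ℕ) (S S' : St) {i : ℕ} (hi : i + 1 < n) :
    matF (paths n S S') (Top v (xK v m) i) * matF (paths n S S') (Xop (xK v m) i) *
      matF (paths n S S') (Top v (xK v m) i) = matF (paths n S S') (Xop (xK v m) (i + 1)) := by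
  have hx := xK_ok hv m
  rw [← matF_mul (Stab_Xop _ _), ← matF_mul (Stab_Top hx n S S' i)]
  apply matF_congr
  intro w hw
  have hl := length_of_mem_paths hw
  obtain ⟨p, a, b, z, rfl, hp⟩ := exists_split₂ (i := i) (w := w) (by omega)
  exact TXT_word hx hp (mem_split₂ hw).1

theorem block_mat (hv : Generic v) (m n : ℕ) (S S' : St) {k a : ℕ} (ha : 1 ≤ a) (hk : k + a ≤ n) :
    matF (paths n S S') (opW v m (blockWord k a)) = matF (paths n S S') (D1 v m k a) := by
  have hx := xK_ok hv m
  obtain ⟨b, rfl⟩ : ∃ b, a = b + 1 := ⟨a - 1, by omega⟩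
  unfold blockWord
  rw [opW_append, show k + (b + 1) - 1 = k + b by omega, opW_range', opW_range_rev, asc_add, zero_add,
    matF_mul ((asc_stab hv 0 k).1.mul (asc_stab hv k b).1), matF_mul (asc_stab hv k b).1,
    matF_mul (Stab_Xop _ _)]
  have e : matF (paths n S S') (((List.range' 0 k).reverse.map (Top v (xK v m))).prod) =
      dsc (fun j => matF (paths n S S') (Top v (xK v m) j)) 0 k := (dsc_stab hv 0 k).2
  rw [e, (asc_stab hv 0 k).2, ← mul_assoc,
    core (fun j => matF (paths n S S') (Top v (xK v m) j))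
      (fun j => matF (paths n S S') (Xop (xK v m) j)) k fun i hi => TXT_mat hv m n S S' (by omega),
    D1, Nat.add_sub_cancel, matF_mul (asc_stab hv k b).1]

theorem block_mat' (hv : Generic v) (m n : ℕ) (S S' : St) {k a : ℕ} (ha : 1 ≤ a) (hk : k + a ≤ n) :
    matF (paths n S S') (opW v m (blockWord k a).reverse) = matF (paths n S S') (D2 v m k a) := by
  have hx := xK_ok hv m
  obtain ⟨b, rfl⟩ : ∃ b, a = b + 1 := ⟨a - 1, by omega⟩
  unfold blockWord
  rw [List.reverse_append, List.reverse_reverse, opW_append, show k + (b + 1) - 1 = k + b by omega,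
    opW_range'_rev, opW_range, dsc_add, zero_add,
    matF_mul ((Stab_Xop _ _).mul (asc_stab hv 0 k).1), matF_mul (dsc_stab hv 0 k).1,
    matF_mul (asc_stab hv 0 k).1]
  rw [(asc_stab hv 0 k).2, (dsc_stab hv 0 k).2, mul_assoc, ← mul_assoc (dsc _ 0 k),
    core (fun j => matF (paths n S S') (Top v (xK v m) j))
      (fun j => matF (paths n S S') (Xop (xK v m) j)) k fun i hi => TXT_mat hv m n S S' (by omega),
    D2, Nat.add_sub_cancel, matF_mul (Stab_Xop _ _)]

theorem word_mat (hv : Generic v) (m n : ℕ) (S S' : St) (l : List ℕ) (hl : ∀ a ∈ l, 1 ≤ a) (k : ℕ)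
    (hk : k + l.sum ≤ n) :
    matF (paths n S S') (opW v m (stdWord k l)) = matF (paths n S S') (mB (D1 v m) k l) := by
  induction l generalizing k with
  | nil => rw [stdWord, mB]; rfl
  | cons a l ih =>
    rw [List.sum_cons] at hk
    rw [stdWord, mB, opW_append, matF_mul (opW_stab hv m n S S' _),
      matF_mul (mB_stab (BD1 hv m) l _ n S S'), block_mat hv m n S S' (hl a (by simp)) (by omega),
      ih (fun b hb => hl b (by simp [hb])) (k + a) (by omega)]

theorem word_mat' (hv : Generic v) (m n : ℕ) (S S' : St) (l : List ℕ) (hl : ∀ a ∈ l, 1 ≤ a) (k : ℕ)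
    (hk : k + l.sum ≤ n) :
    matF (paths n S S') (opW v m (stdWord k l).reverse) =
      matF (paths n S S') (mB' (D2 v m) k l) := by
  induction l generalizing k with
  | nil => rw [stdWord, mB']; rfl
  | cons a l ih =>
    rw [List.sum_cons] at hk
    rw [stdWord, mB', List.reverse_append, opW_append, matF_mul (opW_stab hv m n S S' _),
      matF_mul ((BD2 hv m).stab k a n S S'), block_mat' hv m n S S' (hl a (by simp)) (by omega),
      ih (fun b hb => hl b (by simp [hb])) (k + a) (by omega)]

theorem length_block {k a : ℕ} (ha : 1 ≤ a) : (blockWord k a).length = 2 * k + a := by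
  unfold blockWord
  rw [List.length_append, List.length_reverse, List.length_range, List.length_range']
  omega

/-! ### normalisation -/

/-- all places `< n - k` are occupied -/
def Good (n k : ℕ) (S : St) : Prop := ∀ (b : Bool) (p : ℕ), p + k < n → (b, p) ∈ S

theorem Good.move {n k a : ℕ} {S : St} (h : Good n k S) {l : Lab} (hl : l ∈ addable a S) :
    Good n (k + a) (move a S l) := by
  intro b p hp
  rw [mem_move]
  right
  rw [mem_addable] at hl
  refine ⟨?_, h b p (by omega)⟩
  rintro rfl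
  exact hl.2 (h b (p + a) (by omega))

theorem Good.up {n k a : ℕ} {S : St} (h : Good n k S) {l : Lab} (hl : l ∈ addable a S) :
    n ≤ l.2 + a + k := by
  rw [mem_addable] at hl
  by_contra hc
  exact hl.2 (h l.1 (l.2 + a) (by omega))

/-- evaluation at `q = v²` -/
noncomputable def ev (v : K) : ℤ[X] →+* K := Polynomial.eval₂RingHom (Int.castRingHom K) (v ^ 2)

theorem ev_X (v : K) : ev v X = v ^ 2 := by
  unfold ev; rw [Polynomial.coe_eval₂RingHom, Polynomial.eval₂_X]

theorem ev_wq (hv : v ≠ 0) {n k a : ℕ} (ha : 1 ≤ a) {l : Lab} (h : n ≤ l.2 + a + k) :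
    ev v (wq n k a l) = v ^ (2 * k + a) * v ^ (a - 1) * xK v n l := by
  obtain ⟨b, p⟩ := l
  simp only at h
  have hz : ∀ j : ℕ, (v ^ j : K) = v ^ (j : ℤ) := fun j => (zpow_natCast v j).symm
  have hvi : v⁻¹ = v ^ (-1 : ℤ) := by rw [zpow_neg_one]
  have hv1 : (v : K) = v ^ (1 : ℤ) := by rw [zpow_one]
  cases b
  · unfold wq xK
    simp only [Bool.false_eq_true, if_false]
    rw [map_neg, map_pow, ev_X, ← pow_mul, hz, hz, hz, hvi]
    have e : (v : K) ^ ((2 * k + a : ℕ) : ℤ) * v ^ ((a - 1 : ℕ) : ℤ) *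
        (- v ^ (-1 : ℤ) * v ^ (2 * ((p : ℤ) + 1 - n))) =
        - (v ^ ((2 * k + a : ℕ) : ℤ) * v ^ ((a - 1 : ℕ) : ℤ) *
        (v ^ (-1 : ℤ) * v ^ (2 * ((p : ℤ) + 1 - n)))) := by ring
    rw [e, ← zpow_add₀ hv, ← zpow_add₀ hv, ← zpow_add₀ hv]
    congr 2
    push_cast [Nat.cast_sub ha, Nat.cast_sub (show n ≤ k + a + p by omega)]
    ring
  · unfold wq xK
    simp only [if_true]
    rw [map_pow, ev_X, ← pow_mul, hz, hz, hz]
    have e : (v : K) * v ^ (2 * ((p : ℤ) + 1 - n)) = v ^ (1 + 2 * ((p : ℤ) + 1 - n)) := by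
      rw [zpow_add₀ hv, zpow_one]
    rw [e, ← zpow_add₀ hv, ← zpow_add₀ hv]
    congr 1
    push_cast [Nat.cast_sub ha, Nat.cast_sub (show n ≤ k + a + p + 1 by omega)]
    ring

theorem Rib_apply {R : Type*} [CommRing R] (w : Lab → R) (a : ℕ) (u : St →₀ R) (S' : St) :
    Rib w a u S' = ∑ S ∈ u.support, u S * ∑ l ∈ addable a S,
      if move a S l = S' then (-1) ^ cnt S l a * w l else 0 := by
  unfold Rib
  rw [Finsupp.linearCombination_apply, Finsupp.sum_apply]
  unfold Finsupp.sum
  apply sum_congr rfl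
  intro S _
  beta_reduce
  rw [Finsupp.smul_apply, smul_eq_mul, Finsupp.finsetSum_apply]
  congr 1
  apply sum_congr rfl
  intro l _
  rw [Finsupp.single_apply]

/-- coefficientwise evaluation -/
noncomputable def evu (v : K) (u : St →₀ ℤ[X]) : St →₀ K := u.mapRange (ev v) (map_zero _)

theorem Rib_evu (hv : v ≠ 0) {n k a : ℕ} (ha : 1 ≤ a) (u : St →₀ ℤ[X])
    (hu : ∀ S ∈ u.support, Good n k S) :
    evu v (Rib (wq n k a) a u) = (v ^ (2 * k + a) * v ^ (a - 1)) • Rib (xK v n) a (evu v u) := by
  ext S'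
  rw [Finsupp.smul_apply, smul_eq_mul]
  unfold evu
  rw [Finsupp.mapRange_apply, Rib_apply, Rib_apply]
  have h1 : ∑ S ∈ (u.mapRange (ev v) (map_zero _)).support, (u.mapRange (ev v) (map_zero _)) S *
      (∑ l ∈ addable a S, if move a S l = S' then (-1) ^ cnt S l a * xK v n l else 0) =
      ∑ S ∈ u.support, ev v (u S) *
      (∑ l ∈ addable a S, if move a S l = S' then (-1) ^ cnt S l a * xK v n l else 0) := by
    rw [sum_subset (Finsupp.support_mapRange (f := ev v) (hf := map_zero _) (g := u))]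
    · simp only [Finsupp.mapRange_apply]
    · intro S _ h
      rw [Finsupp.notMem_support_iff.1 h, zero_mul]
  rw [h1, map_sum, mul_sum]
  apply sum_congr rfl
  intro S hS
  rw [map_mul, map_sum, mul_left_comm]
  congr 1
  rw [mul_sum]
  apply sum_congr rfl
  intro l hl
  split_ifs
  · rw [map_mul, map_pow, map_neg, map_one, ev_wq hv ha ((hu S hS).up hl)]
    ring
  · rw [map_zero, mul_zero]

theorem Rib_good {n k a : ℕ} (u : St →₀ ℤ[X]) (hu : ∀ S ∈ u.support, Good n k S) :
    ∀ S ∈ (Rib (wq n k a) a u).support, Good n (k + a) S := by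
  intro S' hS'
  rw [Finsupp.mem_support_iff, Rib_apply] at hS'
  obtain ⟨S, hS, h1⟩ := exists_ne_zero_of_sum_ne_zero hS'
  obtain ⟨l, hl, h2⟩ := exists_ne_zero_of_sum_ne_zero (right_ne_zero_of_mul h1)
  split_ifs at h2 with h3
  · rw [← h3]; exact (hu S hS).move hl
  · exact absurd rfl h2

theorem ev_fock (hv : v ≠ 0) (n : ℕ) (l : List ℕ) (hl : ∀ a ∈ l, 1 ≤ a) (k : ℕ) (u : St →₀ ℤ[X])
    (hu : ∀ S ∈ u.support, Good n k S) (S' : St) :
    ev v (fock n k l u S') = v ^ (stdWord k l).length *
      (v ^ ((l.map (· - 1)).sum) * fx (xK v n) l (evu v u) S') := by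
  induction l generalizing k u with
  | nil =>
    rw [fock, stdWord, fx]
    simp [evu]
  | cons a l ih =>
    have ha : 1 ≤ a := hl a (by simp)
    rw [fock, stdWord, fx, ih (fun b hb => hl b (by simp [hb])) (k + a) _ (Rib_good u hu),
      Rib_evu hv ha u hu, map_smul, Finsupp.smul_apply, smul_eq_mul, LinearMap.comp_apply,
      List.length_append, length_block ha, List.map_cons, List.sum_cons, pow_add, pow_add v (a - 1)]
    ring

theorem good_vac (n : ℕ) : Good n 0 (vac n) := by
  intro b p hp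
  simp only [vac, mem_product, mem_univ, true_and, mem_range]
  omega

theorem ev_vec (hv : v ≠ 0) (n : ℕ) (l : List ℕ) (hl : ∀ a ∈ l, 1 ≤ a) (S' : St) :
    (vec n l S').eval₂ (Int.castRingHom K) (v ^ 2) = v ^ (stdWord 0 l).length *
      (v ^ ((l.map (· - 1)).sum) * fx (xK v n) l (Finsupp.single (vac n) 1) S') := by
  have h := ev_fock hv n l hl 0 (Finsupp.single (vac n) 1) (by
    intro S hS
    have := Finsupp.support_single_subset hS
    rw [mem_singleton] at this
    rw [this]; exact good_vac n) S'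
  have e : evu v (Finsupp.single (vac n) 1) = Finsupp.single (vac n) 1 := by
    unfold evu; rw [Finsupp.mapRange_single, map_one]
  rw [e] at h
  exact h

end words

theorem CH : CH_stmt := by
  intro K _ v hv n l hl S'
  obtain ⟨h1, -, h3⟩ := hl
  have h0 : v ≠ 0 := (xK_ok hv n).v0
  subst h3
  constructor
  · rw [ev_vec h0 _ l h1 S', ← tr_mB (BD1 hv l.sum) h0 l h1, trP_eq, trP_eq, trF_eq, trF_eq,
      word_mat hv l.sum l.sum (vac l.sum) S' l h1 0 (by omega)]
  · rw [ev_vec h0 _ l h1 S', ← tr_mB' (BD2 hv l.sum) h0 l h1, trP_eq, trP_eq, trF_eq, trF_eq,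
      word_mat' hv l.sum l.sum (vac l.sum) S' l h1 0 (by omega)]

end Pool.Agent.helper31.PC
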