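import Pool.Agent.helper27.PC.Stmt

/-!
# PC project, module LEN: the standard words are reduced and the standard elements have minimal length
-/

set_option linter.all false

namespace Pool.Agent.helper27.PC

open Finset

section LENa

variable {n : ℕ}

/-- the position of a signed index -/
def LEN_pos (x : Fin n × Bool) : ℤ := if x.2 then (x.1.val : ℤ) + 1 else -((x.1.val : ℤ) + 1)

/-- odd injective functions -/
structure LEN_Odd (h : Fin n × Bool → ℤ) : Prop where
  inj : Function.Injective h
  odd : ∀ x, h (x.1, !x.2) = - h x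

theorem LEN_pos_odd : LEN_Odd (LEN_pos (n := n)) := by
  refine ⟨?_, ?_⟩
  · rintro ⟨i, b⟩ ⟨j, c⟩ h
    unfold LEN_pos at h
    cases b <;> cases c <;> simp only [if_true, if_false, Bool.false_eq_true] at h
    · have : i = j := Fin.ext (by omega)
      rw [this]
    · omega
    · omega
    · have : i = j := Fin.ext (by omega)
      rw [this]
  · rintro ⟨i, b⟩
    unfold LEN_pos
    cases b <;> simp

theorem LEN_Odd.ne_zero {h : Fin n × Bool → ℤ} (H : LEN_Odd h) (x : Fin n × Bool) : h x ≠ 0 := by
  intro h0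
  have h1 := H.odd x
  rw [h0, neg_zero, ← h0] at h1
  have h2 := H.inj h1
  have h3 := congrArg Prod.snd h2
  simp at h3

/-- transition of a pair -/
def LEN_tau (h : Fin n × Bool → ℤ) (w : Equiv.Perm (Fin n × Bool)) (x y : Fin n × Bool) : ℕ :=
  if h x < h y ∧ h (w y) < h (w x) then 1 else 0

/-- change of sign -/
def LEN_nu (h : Fin n × Bool → ℤ) (w : Equiv.Perm (Fin n × Bool)) (x : Fin n × Bool) : ℕ :=
  if 0 < h x ∧ h (w x) < 0 then 1 else 0

/-- number of transitions -/
def LEN_T (h : Fin n × Bool → ℤ) (w : Equiv.Perm (Fin n × Bool)) (X Y : Finset (Fin n × Bool)) : ℕ :=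
  ∑ x ∈ X, ∑ y ∈ Y, LEN_tau h w x y

/-- total number -/
def LEN_inv (h : Fin n × Bool → ℤ) (w : Equiv.Perm (Fin n × Bool)) : ℕ :=
  LEN_T h w univ univ + ∑ x, LEN_nu h w x

theorem LEN_inv_mul {h : Fin n × Bool → ℤ} (H : LEN_Odd h) (w u : Equiv.Perm (Fin n × Bool)) :
    LEN_inv h (w * u) ≤ LEN_inv h w + LEN_inv h u := by
  have h1 : LEN_T h (w * u) univ univ ≤ LEN_T h w univ univ + LEN_T h u univ univ := by
    have e1 : LEN_T h w univ univ = ∑ x, ∑ y, LEN_tau h w (u x) (u y) := by
      unfold LEN_T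
      rw [← Equiv.sum_comp u]
      apply Finset.sum_congr rfl
      intro x _
      rw [← Equiv.sum_comp u]
    rw [e1]
    unfold LEN_T
    rw [← Finset.sum_add_distrib]
    apply Finset.sum_le_sum
    intro x _
    rw [← Finset.sum_add_distrib]
    apply Finset.sum_le_sum
    intro y _
    unfold LEN_tau
    by_cases hp : h x < h y ∧ h ((w * u) y) < h ((w * u) x)
    · rw [if_pos hp]
      obtain ⟨hp1, hp2⟩ := hp
      rw [Equiv.Perm.mul_apply, Equiv.Perm.mul_apply] at hp2
      rcases lt_trichotomy (h (u x)) (h (u y)) with h3 | h3 | h3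
      · rw [if_pos ⟨h3, hp2⟩]
        omega
      · exfalso
        have := u.injective (H.inj h3)
        rw [this] at hp1
        exact lt_irrefl _ hp1
      · rw [if_pos (show h x < h y ∧ h (u y) < h (u x) from ⟨hp1, h3⟩)]
        omega
    · rw [if_neg hp]
      exact Nat.zero_le _
  have h2 : ∑ x, LEN_nu h (w * u) x ≤ ∑ x, LEN_nu h w x + ∑ x, LEN_nu h u x := by
    have e1 : ∑ x, LEN_nu h w x = ∑ x, LEN_nu h w (u x) := (Equiv.sum_comp u _).symm
    rw [e1, ← Finset.sum_add_distrib]
    apply Finset.sum_le_sum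
    intro x _
    unfold LEN_nu
    by_cases hp : 0 < h x ∧ h ((w * u) x) < 0
    · rw [if_pos hp]
      obtain ⟨hp1, hp2⟩ := hp
      rw [Equiv.Perm.mul_apply] at hp2
      rcases lt_trichotomy (h (u x)) 0 with h3 | h3 | h3
      · rw [if_pos (show 0 < h x ∧ h (u x) < 0 from ⟨hp1, h3⟩)]
        omega
      · exact absurd h3 (H.ne_zero _)
      · rw [if_pos ⟨h3, hp2⟩]
        omega
    · rw [if_neg hp]
      exact Nat.zero_le _
  unfold LEN_inv
  omega

theorem LEN_inv_conj (h : Fin n × Bool → ℤ) (w g : Equiv.Perm (Fin n × Bool)) :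
    LEN_inv h (g * w * g⁻¹) = LEN_inv (fun x => h (g x)) w := by
  unfold LEN_inv LEN_T
  congr 1
  · rw [← Equiv.sum_comp g]
    apply Finset.sum_congr rfl
    intro x _
    rw [← Equiv.sum_comp g]
    apply Finset.sum_congr rfl
    intro y _
    unfold LEN_tau
    simp [Equiv.Perm.mul_apply]
  · rw [← Equiv.sum_comp g]
    apply Finset.sum_congr rfl
    intro x _
    unfold LEN_nu
    simp [Equiv.Perm.mul_apply]

theorem LEN_inv_one (h : Fin n × Bool → ℤ) : LEN_inv h 1 = 0 := by
  unfold LEN_inv LEN_T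
  rw [Nat.add_eq_zero_iff]
  constructor
  · apply Finset.sum_eq_zero
    intro x _
    apply Finset.sum_eq_zero
    intro y _
    unfold LEN_tau
    rw [if_neg]
    rintro ⟨h1, h2⟩
    rw [Equiv.Perm.one_apply, Equiv.Perm.one_apply] at h2
    omega
  · apply Finset.sum_eq_zero
    intro x _
    unfold LEN_nu
    rw [if_neg]
    rintro ⟨h1, h2⟩
    rw [Equiv.Perm.one_apply] at h2
    omega

theorem LEN_T_card (h : Fin n × Bool → ℤ) (w : Equiv.Perm (Fin n × Bool))
    (X Y : Finset (Fin n × Bool)) : LEN_T h w X Y =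
      ((X ×ˢ Y).filter (fun p => h p.1 < h p.2 ∧ h (w p.2) < h (w p.1))).card := by
  rw [Finset.card_filter, Finset.sum_product]
  rfl

theorem LEN_inv_gen (i : Fin n) : LEN_inv LEN_pos (genPerm n i) ≤ 2 := by
  by_cases hi : i.val = 0
  · have hT : LEN_T LEN_pos (genPerm n i) univ univ ≤ 1 := by
      rw [LEN_T_card]
      refine le_trans (Finset.card_le_card (t := {((i, false), (i, true))}) ?_) (by simp)
      rintro ⟨⟨j, b⟩, ⟨k, c⟩⟩ hx
      simp only [Finset.mem_filter] at hx
      obtain ⟨-, h1, h2⟩ := hx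
      have hg : ∀ (j : Fin n) (b : Bool), genPerm n i (j, b) = if j = i then (j, !b) else (j, b) := by
        intro j b
        have := genPerm_mem n i
        unfold genPerm
        rw [if_pos hi]
        by_cases hj : j = i
        · subst hj
          cases b <;> simp [Equiv.swap_apply_left, Equiv.swap_apply_right]
        · rw [Equiv.swap_apply_of_ne_of_ne, if_neg hj] <;> simp [Prod.ext_iff, hj]
      rw [hg, hg] at h2
      rw [Finset.mem_singleton]
      by_cases hj : j = i <;> by_cases hk : k = i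
      · subst hj
        subst hk
        rw [if_pos rfl, if_pos rfl] at h2
        cases b <;> cases c <;> simp [LEN_pos] at h1 h2 ⊢ <;> omega
      · exfalso
        have hk' : k.val ≠ i.val := fun h => hk (Fin.ext h)
        subst hj
        rw [if_neg hk, if_pos rfl] at h2
        cases b <;> cases c <;> simp [LEN_pos] at h1 h2 <;> omega
      · exfalso
        have hj' : j.val ≠ i.val := fun h => hj (Fin.ext h)
        subst hk
        rw [if_neg hj, if_pos rfl] at h2
        cases b <;> cases c <;> simp [LEN_pos] at h1 h2 <;> omega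
      · exfalso
        rw [if_neg hj, if_neg hk] at h2
        omega
    have hN : ∑ x, LEN_nu LEN_pos (genPerm n i) x ≤ 1 := by
      have e1 : ∑ x, LEN_nu LEN_pos (genPerm n i) x =
          ((univ : Finset (Fin n × Bool)).filter
            (fun x => 0 < LEN_pos x ∧ LEN_pos (genPerm n i x) < 0)).card := by
        rw [Finset.card_filter]
        rfl
      rw [e1]
      refine le_trans (Finset.card_le_card (t := {(i, true)}) ?_) (by simp)
      rintro ⟨j, b⟩ hx
      simp only [Finset.mem_filter, Finset.mem_univ, true_and] at hx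
      obtain ⟨h1, h2⟩ := hx
      rw [Finset.mem_singleton]
      have hg : genPerm n i (j, b) = if j = i then (j, !b) else (j, b) := by
        unfold genPerm
        rw [if_pos hi]
        by_cases hj : j = i
        · subst hj
          cases b <;> simp [Equiv.swap_apply_left, Equiv.swap_apply_right]
        · rw [Equiv.swap_apply_of_ne_of_ne, if_neg hj] <;> simp [Prod.ext_iff, hj]
      rw [hg] at h2
      by_cases hj : j = i
      · subst hj
        rw [if_pos rfl] at h2
        cases b <;> simp [LEN_pos] at h1 h2 ⊢ <;> omega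
      · rw [if_neg hj] at h2
        omega
    unfold LEN_inv
    omega
  · have hi' : i.val - 1 < n := lt_of_le_of_lt (Nat.sub_le _ _) i.isLt
    have hg : ∀ x : Fin n × Bool, ((genPerm n i x).1.val = if x.1.val + 1 = i.val then i.val else
        if x.1.val = i.val then i.val - 1 else x.1.val) ∧ (genPerm n i x).2 = x.2 := by
      rintro ⟨j, b⟩
      unfold genPerm
      rw [if_neg hi]
      simp only [Equiv.prodCongr_apply, Prod.map, Equiv.refl_apply, and_true]
      rw [Equiv.swap_apply_def]
      obtain ⟨i, hi2⟩ := i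
      obtain ⟨j, hj⟩ := j
      simp only [Fin.mk.injEq] at hi ⊢
      split_ifs <;> simp only <;> omega
    have hT : LEN_T LEN_pos (genPerm n i) univ univ ≤ 2 := by
      rw [LEN_T_card]
      refine le_trans (Finset.card_le_card (t := {((⟨i.val - 1, hi'⟩, true), (i, true)),
        ((i, false), (⟨i.val - 1, hi'⟩, false))}) ?_) Finset.card_le_two
      rintro ⟨x, y⟩ hx
      simp only [Finset.mem_filter] at hx
      obtain ⟨-, h1, h2⟩ := hx
      obtain ⟨gx1, gx2⟩ := hg x
      obtain ⟨gy1, gy2⟩ := hg y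
      unfold LEN_pos at h1 h2
      rw [gx1, gx2, gy1, gy2] at h2
      obtain ⟨⟨j, hj⟩, b⟩ := x
      obtain ⟨⟨k, hk⟩, c⟩ := y
      obtain ⟨i, hi2⟩ := i
      simp only at h1 h2 hi ⊢
      rw [Finset.mem_insert, Finset.mem_singleton]
      simp only [Prod.mk.injEq, Fin.mk.injEq]
      cases b <;> cases c <;> simp only [if_true, if_false, Bool.false_eq_true, and_true,
        and_false, false_or, or_false] at h1 h2 ⊢
      · split_ifs at h2 <;> omega
      · exfalso
        split_ifs at h2 <;> omega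
      · exfalso
        split_ifs at h2 <;> omega
      · split_ifs at h2 <;> omega
    have hN : ∑ x, LEN_nu LEN_pos (genPerm n i) x = 0 := by
      apply Finset.sum_eq_zero
      intro x _
      unfold LEN_nu
      rw [if_neg]
      rintro ⟨h1, h2⟩
      obtain ⟨gx1, gx2⟩ := hg x
      unfold LEN_pos at h1 h2
      rw [gx1, gx2] at h2
      cases hx : x.2
      · rw [hx] at h1
        simp only [if_false, Bool.false_eq_true] at h1
        omega
      · rw [hx] at h2
        simp only [if_true] at h2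
        split_ifs at h2 <;> omega
    unfold LEN_inv
    omega

theorem LEN_inv_word (l : List (Fin n)) :
    LEN_inv LEN_pos (((l.map (gen n)).prod : W n) : Equiv.Perm (Fin n × Bool)) ≤ 2 * l.length := by
  induction l with
  | nil =>
    simp only [List.map_nil, List.prod_nil, List.length_nil, Subgroup.coe_one]
    rw [LEN_inv_one]
  | cons a l ih =>
    rw [List.map_cons, List.prod_cons, Subgroup.coe_mul, List.length_cons]
    have h1 := LEN_inv_mul LEN_pos_odd ((gen n a : W n) : Equiv.Perm (Fin n × Bool))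
      (((l.map (gen n)).prod : W n) : Equiv.Perm (Fin n × Bool))
    have h2 : LEN_inv LEN_pos ((gen n a : W n) : Equiv.Perm (Fin n × Bool)) ≤ 2 := LEN_inv_gen a
    omega

/-! ### the standard elements as permutations -/

theorem LEN_g_zero (hn : 0 < n) (x : Fin n × Bool) :
    (((g n 0 : W n) : Equiv.Perm (Fin n × Bool)) x).1.val = x.1.val ∧
    (((g n 0 : W n) : Equiv.Perm (Fin n × Bool)) x).2 = if x.1.val = 0 then !x.2 else x.2 := by
  have e : ((g n 0 : W n) : Equiv.Perm (Fin n × Bool)) = genPerm n ⟨0, hn⟩ := by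
    unfold g
    rw [dif_pos hn]
    rfl
  rw [e]
  obtain ⟨⟨j, hj⟩, b⟩ := x
  unfold genPerm
  rw [if_pos rfl]
  by_cases h0 : j = 0
  · subst h0
    cases b <;> simp [Equiv.swap_apply_left, Equiv.swap_apply_right]
  · rw [Equiv.swap_apply_of_ne_of_ne] <;> simp [Prod.ext_iff, h0]

theorem LEN_g_succ {i : ℕ} (hi : i + 1 < n) (x : Fin n × Bool) :
    (((g n (i + 1) : W n) : Equiv.Perm (Fin n × Bool)) x).1.val =
      (if x.1.val = i then i + 1 else if x.1.val = i + 1 then i else x.1.val) ∧
    (((g n (i + 1) : W n) : Equiv.Perm (Fin n × Bool)) x).2 = x.2 := by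
  have e : ((g n (i + 1) : W n) : Equiv.Perm (Fin n × Bool)) = genPerm n ⟨i + 1, hi⟩ := by
    unfold g
    rw [dif_pos hi]
    rfl
  rw [e]
  obtain ⟨⟨j, hj⟩, b⟩ := x
  unfold genPerm
  rw [if_neg (by simp)]
  simp only [Equiv.prodCongr_apply, Prod.map, Equiv.refl_apply, and_true]
  rw [Equiv.swap_apply_def]
  simp only [Fin.mk.injEq, Nat.add_sub_cancel]
  split_ifs <;> simp only <;> omega

/-- abbreviation for the permutation of a word -/
noncomputable def LEN_w (n : ℕ) (l : List ℕ) : Equiv.Perm (Fin n × Bool) :=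
  (((l.map (g n)).prod : W n) : Equiv.Perm (Fin n × Bool))

theorem LEN_w_nil (x : Fin n × Bool) : LEN_w n [] x = x := by
  simp [LEN_w]

theorem LEN_w_append (l l' : List ℕ) (x : Fin n × Bool) :
    LEN_w n (l ++ l') x = LEN_w n l (LEN_w n l' x) := by
  simp [LEN_w, List.map_append, List.prod_append, Equiv.Perm.mul_apply]

theorem LEN_w_single (i : ℕ) (x : Fin n × Bool) :
    LEN_w n [i] x = ((g n i : W n) : Equiv.Perm (Fin n × Bool)) x := by
  simp [LEN_w]

theorem LEN_range' (m : ℕ) (hm : m < n) (x : Fin n × Bool) :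
    (LEN_w n (List.range' 1 m) x).1.val =
      (if x.1.val < m then x.1.val + 1 else if x.1.val = m then 0 else x.1.val) ∧
    (LEN_w n (List.range' 1 m) x).2 = x.2 := by
  induction m generalizing x with
  | zero =>
    simp only [List.range'_zero, LEN_w_nil, and_true]
    split_ifs <;> omega
  | succ m ih =>
    rw [List.range'_1_concat, LEN_w_append, LEN_w_single]
    obtain ⟨a1, a2⟩ := LEN_g_succ (n := n) (i := m) hm x
    rw [show 1 + m = m + 1 by ring]
    obtain ⟨b1, b2⟩ := ih (by omega) (((g n (m + 1) : W n) : Equiv.Perm (Fin n × Bool)) x)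
    rw [b1, b2, a1, a2]
    refine ⟨?_, rfl⟩
    split_ifs <;> omega

theorem LEN_rev (k : ℕ) (hk : k < n) (x : Fin n × Bool) :
    (LEN_w n (List.range (k + 1)).reverse x).1.val =
      (if x.1.val = 0 then k else if x.1.val ≤ k then x.1.val - 1 else x.1.val) ∧
    (LEN_w n (List.range (k + 1)).reverse x).2 = if x.1.val = 0 then !x.2 else x.2 := by
  induction k generalizing x with
  | zero =>
    have e : (List.range (0 + 1)).reverse = [0] := by decide
    rw [e, LEN_w_single]
    obtain ⟨a1, a2⟩ := LEN_g_zero hk x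
    rw [a1, a2]
    refine ⟨?_, rfl⟩
    split_ifs <;> omega
  | succ k ih =>
    rw [List.range_succ, List.reverse_append, List.reverse_singleton, LEN_w_append, LEN_w_single]
    obtain ⟨b1, b2⟩ := ih (by omega) x
    obtain ⟨a1, a2⟩ := LEN_g_succ (n := n) (i := k) hk (LEN_w n (List.range (k + 1)).reverse x)
    rw [a1, a2, b1, b2]
    refine ⟨?_, rfl⟩
    split_ifs <;> omega

theorem LEN_block (k a : ℕ) (ha : 1 ≤ a) (hk : k + a ≤ n) (x : Fin n × Bool) :
    (LEN_w n (blockWord k a) x).1.val =
      (if x.1.val < k then x.1.val else if x.1.val + 1 < k + a then x.1.val + 1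
        else if x.1.val + 1 = k + a then k else x.1.val) ∧
    (LEN_w n (blockWord k a) x).2 = if x.1.val + 1 = k + a then !x.2 else x.2 := by
  unfold blockWord
  rw [LEN_w_append]
  obtain ⟨a1, a2⟩ := LEN_range' (n := n) (k + a - 1) (by omega) x
  obtain ⟨b1, b2⟩ := LEN_rev (n := n) k (by omega) (LEN_w n (List.range' 1 (k + a - 1)) x)
  rw [b1, b2, a2]
  generalize (LEN_w n (List.range' 1 (k + a - 1)) x).1.val = y at a1 ⊢
  refine ⟨?_, ?_⟩
  · split_ifs at a1 ⊢ <;> omega
  · split_ifs at a1 ⊢ <;> first | rfl | (exfalso; omega)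

/-- `w` acts by negative cycles of lengths `l`, from the coordinate `k` on -/
def LEN_Blk (w : Equiv.Perm (Fin n × Bool)) : ℕ → List ℕ → Prop
  | _, [] => True
  | k, a :: l => (∀ x, k ≤ x.1.val → x.1.val + 1 < k + a → (w x).1.val = x.1.val + 1 ∧
      (w x).2 = x.2) ∧ (∀ x, x.1.val + 1 = k + a → (w x).1.val = k ∧ (w x).2 = !x.2) ∧
      LEN_Blk w (k + a) l

theorem LEN_Blk_congr (w w' : Equiv.Perm (Fin n × Bool)) (l : List ℕ) (hl : ∀ a ∈ l, 1 ≤ a) :
    ∀ k, (∀ x, k ≤ x.1.val → w' x = w x) → LEN_Blk w k l → LEN_Blk w' k l := by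
  induction l with
  | nil => intro k _ _; trivial
  | cons a l ih =>
    intro k h hB
    have ha : 1 ≤ a := hl a (by simp)
    obtain ⟨h1, h2, h3⟩ := hB
    refine ⟨?_, ?_, ?_⟩
    · intro x hx hx'
      rw [h x hx]
      exact h1 x hx hx'
    · intro x hx
      rw [h x (by omega)]
      exact h2 x hx
    · exact ih (fun b hb => hl b (by simp [hb])) (k + a) (fun x hx => h x (by omega)) h3

theorem LEN_std (l : List ℕ) (hl : ∀ a ∈ l, 1 ≤ a) : ∀ k, k + l.sum ≤ n →
    (∀ x : Fin n × Bool, x.1.val < k → LEN_w n (stdWord k l) x = x) ∧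
    (∀ x : Fin n × Bool, k ≤ x.1.val → k ≤ (LEN_w n (stdWord k l) x).1.val) ∧
    LEN_Blk (LEN_w n (stdWord k l)) k l := by
  induction l with
  | nil =>
    intro k _
    refine ⟨fun x _ => ?_, fun x hx => ?_, trivial⟩
    · simp [stdWord, LEN_w]
    · simpa [stdWord, LEN_w] using hx
  | cons a l ih =>
    intro k hk
    rw [List.sum_cons] at hk
    have ha : 1 ≤ a := hl a (by simp)
    obtain ⟨i1, i2, i3⟩ := ih (fun b hb => hl b (by simp [hb])) (k + a) (by omega)
    have hb := LEN_block (n := n) k a ha (by omega)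
    have hfix : ∀ x : Fin n × Bool, (x.1.val < k ∨ k + a ≤ x.1.val) →
        LEN_w n (blockWord k a) x = x := by
      intro x hx
      obtain ⟨b1, b2⟩ := hb x
      refine Prod.ext (Fin.ext ?_) ?_
      · rw [b1]
        split_ifs <;> omega
      · rw [b2, if_neg (by omega)]
    have hw : ∀ x, LEN_w n (stdWord k (a :: l)) x =
        LEN_w n (blockWord k a) (LEN_w n (stdWord (k + a) l) x) := by
      intro x
      exact LEN_w_append _ _ x
    refine ⟨?_, ?_, ?_⟩
    · intro x hx
      rw [hw, i1 x (by omega), hfix x (Or.inl hx)]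
    · intro x hx
      rw [hw]
      by_cases h : x.1.val < k + a
      · rw [i1 x h]
        obtain ⟨b1, b2⟩ := hb x
        rw [b1]
        split_ifs <;> omega
      · have := i2 x (by omega)
        rw [hfix _ (Or.inr this)]
        omega
    · refine ⟨?_, ?_, ?_⟩
      · intro x hx hx'
        rw [hw, i1 x (by omega)]
        obtain ⟨b1, b2⟩ := hb x
        rw [b1, b2]
        rw [if_neg (by omega), if_pos hx', if_neg (by omega)]
        exact ⟨rfl, rfl⟩
      · intro x hx
        rw [hw, i1 x (by omega)]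
        obtain ⟨b1, b2⟩ := hb x
        rw [b1, b2]
        rw [if_neg (by omega), if_neg (by omega), if_pos hx, if_pos hx]
        exact ⟨rfl, rfl⟩
      · refine LEN_Blk_congr (LEN_w n (stdWord (k + a) l)) _ l (fun b hb => hl b (by simp [hb]))
          (k + a) ?_ i3
        intro x hx
        rw [hw]
        exact hfix _ (Or.inr (i2 x hx))

/-! ### cycles -/

/-- `e` runs through a negative cycle of `w` of length `a` -/
structure LEN_Cy (w : Equiv.Perm (Fin n × Bool)) (e : ℕ → Fin n × Bool) (a : ℕ) : Prop where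
  pos : 1 ≤ a
  step : ∀ t, e (t + 1) = w (e t)
  half : ∀ t, e (t + a) = ((e t).1, !(e t).2)
  inj : ∀ s t, s < 2 * a → t < 2 * a → e s = e t → s = t

/-- parametrisation of a block -/
def LEN_e (k a : ℕ) (hk : k + a ≤ n) (ha : 1 ≤ a) (t : ℕ) : Fin n × Bool :=
  (⟨k + t % a, lt_of_lt_of_le (Nat.add_lt_add_left (Nat.mod_lt _ ha) k) hk⟩,
    decide ((t / a) % 2 = 0))

theorem LEN_e_cy (w : Equiv.Perm (Fin n × Bool)) (k a : ℕ) (hk : k + a ≤ n) (ha : 1 ≤ a)
    (h1 : ∀ x : Fin n × Bool, k ≤ x.1.val → x.1.val + 1 < k + a → (w x).1.val = x.1.val + 1 ∧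
      (w x).2 = x.2) (h2 : ∀ x : Fin n × Bool, x.1.val + 1 = k + a → (w x).1.val = k ∧
      (w x).2 = !x.2) : LEN_Cy w (LEN_e k a hk ha) a := by
  have hpar : ∀ q : ℕ, decide ((q + 1) % 2 = 0) = !decide (q % 2 = 0) := by
    intro q
    by_cases h : q % 2 = 0
    · have : (q + 1) % 2 ≠ 0 := by omega
      simp [h, this]
    · have : (q + 1) % 2 = 0 := by omega
      simp [h, this]
  refine ⟨ha, ?_, ?_, ?_⟩
  · intro t
    have hr := Nat.mod_lt t ha
    have ht := Nat.mod_add_div t a
    by_cases h : t % a + 1 < a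
    · have e1 : (t + 1) % a = t % a + 1 := by
        have : t + 1 = (t % a + 1) + a * (t / a) := by omega
        rw [this, Nat.add_mul_mod_self_left, Nat.mod_eq_of_lt h]
      have e2 : (t + 1) / a = t / a := by
        have : t + 1 = (t % a + 1) + a * (t / a) := by omega
        rw [this, Nat.add_mul_div_left _ _ ha, Nat.div_eq_of_lt h, zero_add]
      obtain ⟨g1, g2⟩ := h1 (LEN_e k a hk ha t) (by simp [LEN_e]) (by simp [LEN_e]; omega)
      refine Prod.ext (Fin.ext ?_) ?_
      · rw [g1]
        simp only [LEN_e]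
        omega
      · rw [g2]
        simp only [LEN_e]
        rw [e2]
    · have e1 : (t + 1) % a = 0 := by
        have : t + 1 = 0 + a * (t / a + 1) := by
          rw [Nat.mul_add]
          omega
        rw [this, Nat.add_mul_mod_self_left, Nat.zero_mod]
      have e2 : (t + 1) / a = t / a + 1 := by
        have : t + 1 = 0 + a * (t / a + 1) := by
          rw [Nat.mul_add]
          omega
        rw [this, Nat.add_mul_div_left _ _ ha, Nat.zero_div, zero_add]
      obtain ⟨g1, g2⟩ := h2 (LEN_e k a hk ha t) (by simp [LEN_e]; omega)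
      refine Prod.ext (Fin.ext ?_) ?_
      · rw [g1]
        simp only [LEN_e]
        omega
      · rw [g2]
        simp only [LEN_e]
        rw [e2]
        exact hpar _
  · intro t
    refine Prod.ext (Fin.ext ?_) ?_
    · simp only [LEN_e]
      rw [Nat.add_mod_right]
    · simp only [LEN_e]
      rw [Nat.add_div_right _ ha]
      exact hpar _
  · intro s t hs ht h
    have g1 := congrArg (fun x : Fin n × Bool => x.1.val) h
    have g2 := congrArg (fun x : Fin n × Bool => x.2) h
    simp only [LEN_e] at g1 g2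
    have g2' : ((s / a) % 2 = 0) ↔ ((t / a) % 2 = 0) := decide_eq_decide.1 g2
    have hs' : s / a < 2 := Nat.div_lt_of_lt_mul (by omega)
    have ht' : t / a < 2 := Nat.div_lt_of_lt_mul (by omega)
    have aux : ∀ u v : ℕ, u < 2 → v < 2 → ((u % 2 = 0) ↔ (v % 2 = 0)) → u = v := by
      intro u v hu hv h
      interval_cases u <;> interval_cases v <;> simp_all
    have g3 : s / a = t / a := aux _ _ hs' ht' g2'
    have g4 := Nat.mod_add_div s a
    have g5 := Nat.mod_add_div t a
    rw [g3] at g4
    omega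

theorem LEN_e_mem (k a : ℕ) (hk : k + a ≤ n) (ha : 1 ≤ a) (t : ℕ) :
    k ≤ (LEN_e k a hk ha t).1.val ∧ (LEN_e k a hk ha t).1.val < k + a := by
  have := Nat.mod_lt t ha
  simp only [LEN_e]
  omega

/-! ### transitions between cycles -/

theorem LEN_Cy.per {w : Equiv.Perm (Fin n × Bool)} {e : ℕ → Fin n × Bool} {a : ℕ}
    (H : LEN_Cy w e a) (t : ℕ) : e (t + 2 * a) = e t := by
  have h1 : t + 2 * a = (t + a) + a := by ring
  rw [h1, H.half, H.half]
  simp

theorem LEN_Cy.per_mul {w : Equiv.Perm (Fin n × Bool)} {e : ℕ → Fin n × Bool} {a : ℕ}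
    (H : LEN_Cy w e a) (t j : ℕ) : e (t + 2 * a * j) = e t := by
  induction j with
  | zero => simp
  | succ j ih =>
    have h1 : t + 2 * a * (j + 1) = (t + 2 * a * j) + 2 * a := by ring
    rw [h1, H.per, ih]

theorem LEN_Cy.mod {w : Equiv.Perm (Fin n × Bool)} {e : ℕ → Fin n × Bool} {a : ℕ}
    (H : LEN_Cy w e a) (t : ℕ) : e (t % (2 * a)) = e t := by
  have h1 := Nat.mod_add_div t (2 * a)
  have h2 := H.per_mul (t % (2 * a)) (t / (2 * a))
  rw [h1] at h2
  exact h2.symm

theorem LEN_Cy.eq_mod {w : Equiv.Perm (Fin n × Bool)} {e : ℕ → Fin n × Bool} {a : ℕ}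
    (H : LEN_Cy w e a) {s t : ℕ} (h : e s = e t) : s % (2 * a) = t % (2 * a) := by
  have hp : 0 < 2 * a := by have := H.pos; omega
  apply H.inj _ _ (Nat.mod_lt _ hp) (Nat.mod_lt _ hp)
  rw [H.mod, H.mod, h]

/-- the maximum of an odd function on a cycle -/
theorem LEN_Cy.max {w : Equiv.Perm (Fin n × Bool)} {e : ℕ → Fin n × Bool} {a : ℕ}
    (H : LEN_Cy w e a) (h : Fin n × Bool → ℤ) (Hh : LEN_Odd h) :
    ∃ s, (∀ t, h (e t) ≤ h (e s)) ∧ (∀ t, - h (e s) ≤ h (e t)) ∧ 0 < h (e s) ∧
      h (e (s + a)) = - h (e s) := by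
  have hp : 0 < 2 * a := by have := H.pos; omega
  obtain ⟨s, -, hs⟩ := Finset.exists_max_image (Finset.range (2 * a)) (fun t => h (e t))
    ⟨0, Finset.mem_range.2 hp⟩
  have h1 : ∀ t, h (e t) ≤ h (e s) := by
    intro t
    rw [← H.mod t]
    exact hs _ (Finset.mem_range.2 (Nat.mod_lt _ hp))
  have h2 : ∀ t, h (e (t + a)) = - h (e t) := by
    intro t
    rw [H.half, Hh.odd]
  have h3 : ∀ t, - h (e s) ≤ h (e t) := by
    intro t
    have := h1 (t + a)
    rw [h2] at this
    omega
  refine ⟨s, h1, h3, ?_, h2 s⟩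
  have h4 := h3 s
  have h5 := Hh.ne_zero (e s)
  omega

/-- discrete intermediate value -/
theorem LEN_ivt (P : ℕ → Prop) (m : ℕ) (h0 : P 0) (hm : ¬ P m) : ∃ i < m, P i ∧ ¬ P (i + 1) := by
  by_contra hc
  push Not at hc
  have : ∀ i, i ≤ m → P i := by
    intro i
    induction i with
    | zero => intro _; exact h0
    | succ i ih =>
      intro hi
      exact hc i (by omega) (ih (by omega))
  exact hm (this m le_rfl)

theorem LEN_T_ge {h : Fin n × Bool → ℤ} {w : Equiv.Perm (Fin n × Bool)}
    {X Y : Finset (Fin n × Bool)} (m : ℕ) (f : ℕ → (Fin n × Bool) × (Fin n × Bool))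
    (hf : ∀ t < m, (f t).1 ∈ X ∧ (f t).2 ∈ Y ∧ h (f t).1 < h (f t).2 ∧
      h (w (f t).2) < h (w (f t).1)) (hinj : ∀ s < m, ∀ t < m, f s = f t → s = t) :
    m ≤ LEN_T h w X Y := by
  rw [LEN_T_card]
  have : m = (Finset.range m).card := (Finset.card_range m).symm
  rw [this]
  apply Finset.card_le_card_of_injOn f
  · intro t ht
    have ht' := Finset.mem_range.1 (Finset.mem_coe.1 ht)
    obtain ⟨h1, h2, h3, h4⟩ := hf t ht'
    rw [Finset.mem_coe, Finset.mem_filter, Finset.mem_product]
    exact ⟨⟨h1, h2⟩, h3, h4⟩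
  · intro s hs t ht hst
    exact hinj s (Finset.mem_range.1 (Finset.mem_coe.1 hs)) t
      (Finset.mem_range.1 (Finset.mem_coe.1 ht)) hst

theorem LEN_two (h : Fin n × Bool → ℤ) (Hh : LEN_Odd h) (w : Equiv.Perm (Fin n × Bool))
    (e e' : ℕ → Fin n × Bool) (a b : ℕ) (H : LEN_Cy w e a) (H' : LEN_Cy w e' b)
    (X Y : Finset (Fin n × Bool)) (hX : ∀ t, e t ∈ X) (hY : ∀ t, e' t ∈ Y) (hXY : Disjoint X Y) :
    min (2 * a) (2 * b) ≤ LEN_T h w X Y := by
  classical
  obtain ⟨s, hs1, hs2, hs3, hs4⟩ := H.max h Hh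
  obtain ⟨s', ht1, ht2, ht3, ht4⟩ := H'.max h Hh
  have hne : ∀ i j, h (e i) ≠ h (e' j) := by
    intro i j hij
    have := Hh.inj hij
    exact Finset.disjoint_left.1 hXY (hX i) (this ▸ hY j)
  rcases lt_or_gt_of_ne (hne s s') with hM | hM
  · -- maximum on the second cycle
    refine le_trans (min_le_left _ _) ?_
    have key : ∀ t, ∃ i < b, h (e (t + i)) < h (e' (s' + i)) ∧
        ¬ h (e (t + (i + 1))) < h (e' (s' + (i + 1))) := by
      intro t
      apply LEN_ivt (fun i => h (e (t + i)) < h (e' (s' + i))) b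
      · have := hs1 (t + 0)
        simp only [add_zero] at this ⊢
        omega
      · rw [ht4]
        have := hs2 (t + b)
        omega
    choose i hi1 hi2 hi3 using key
    refine LEN_T_ge (2 * a) (fun t => (e (t + i t), e' (s' + i t))) ?_ ?_
    · intro t _
      refine ⟨hX _, hY _, hi2 t, ?_⟩
      simp only
      rw [← H'.step, ← H.step]
      have h1 := hi3 t
      have h2 := hne (t + (i t + 1)) (s' + (i t + 1))
      have e1 : s' + i t + 1 = s' + (i t + 1) := by ring
      have e2 : t + i t + 1 = t + (i t + 1) := by ring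
      rw [e1, e2]
      omega
    · intro t1 h1 t2 h2 h12
      simp only [Prod.mk.injEq] at h12
      have h3 := H'.eq_mod h12.2
      have h4 : i t1 % (2 * b) = i t2 % (2 * b) :=
        Nat.ModEq.add_left_cancel' s' h3
      rw [Nat.mod_eq_of_lt (by have := hi1 t1; omega), Nat.mod_eq_of_lt (by have := hi1 t2; omega)]
        at h4
      have h5 := H.eq_mod h12.1
      rw [h4] at h5
      have h6 : t1 % (2 * a) = t2 % (2 * a) := Nat.ModEq.add_right_cancel' (i t2) h5
      rwa [Nat.mod_eq_of_lt h1, Nat.mod_eq_of_lt h2] at h6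
  · -- maximum on the first cycle
    refine le_trans (min_le_right _ _) ?_
    have key : ∀ t, ∃ i < a, h (e (s + a + i)) < h (e' (t + i)) ∧
        ¬ h (e (s + a + (i + 1))) < h (e' (t + (i + 1))) := by
      intro t
      apply LEN_ivt (fun i => h (e (s + a + i)) < h (e' (t + i))) a
      · have := ht2 (t + 0)
        simp only [add_zero] at this ⊢
        rw [hs4]
        omega
      · have e1 : s + a + a = s + 2 * a := by ring
        rw [e1, H.per]
        have := ht1 (t + a)
        omega
    choose i hi1 hi2 hi3 using key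
    refine LEN_T_ge (2 * b) (fun t => (e (s + a + i t), e' (t + i t))) ?_ ?_
    · intro t _
      refine ⟨hX _, hY _, hi2 t, ?_⟩
      simp only
      rw [← H'.step, ← H.step]
      have h1 := hi3 t
      have h2 := hne (s + a + (i t + 1)) (t + (i t + 1))
      have e1 : s + a + i t + 1 = s + a + (i t + 1) := by ring
      have e2 : t + i t + 1 = t + (i t + 1) := by ring
      rw [e1, e2]
      omega
    · intro t1 h1 t2 h2 h12
      simp only [Prod.mk.injEq] at h12
      have h3 := H.eq_mod h12.1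
      have h4 : i t1 % (2 * a) = i t2 % (2 * a) :=
        Nat.ModEq.add_left_cancel' (s + a) h3
      rw [Nat.mod_eq_of_lt (by have := hi1 t1; omega), Nat.mod_eq_of_lt (by have := hi1 t2; omega)]
        at h4
      have h5 := H'.eq_mod h12.2
      rw [h4] at h5
      have h6 : t1 % (2 * b) = t2 % (2 * b) := Nat.ModEq.add_right_cancel' (i t2) h5
      rwa [Nat.mod_eq_of_lt h1, Nat.mod_eq_of_lt h2] at h6

theorem LEN_one (h : Fin n × Bool → ℤ) (Hh : LEN_Odd h) (w : Equiv.Perm (Fin n × Bool))
    (e : ℕ → Fin n × Bool) (a : ℕ) (H : LEN_Cy w e a)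
    (X : Finset (Fin n × Bool)) (hX : ∀ t, e t ∈ X) :
    2 * a ≤ LEN_T h w X X + ∑ x ∈ X, LEN_nu h w x := by
  classical
  have hp : 0 < 2 * a := by have := H.pos; omega
  obtain ⟨s, hs1, hs2, hs3, hs4⟩ := H.max h Hh
  have hA : 2 * a - 1 ≤ LEN_T h w X X := by
    have key : ∀ j, ∃ t < 2 * a, (1 ≤ j → j < 2 * a → h (e t) < h (e (t + j)) ∧
        h (e (t + j + 1)) < h (e (t + 1))) := by
      intro j
      by_cases hj : 1 ≤ j ∧ j < 2 * a
      · obtain ⟨i, hi1, hi2, hi3⟩ := LEN_ivt
          (fun i => h (e (s + 2 * a - j + i)) < h (e (s + 2 * a - j + i + j))) j (by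
            simp only [add_zero]
            have e1 : s + 2 * a - j + j = s + 2 * a := by omega
            rw [e1, H.per]
            have h1 := hs1 (s + 2 * a - j)
            have h2 : h (e (s + 2 * a - j)) ≠ h (e s) := by
              intro h3
              have h4 := H.eq_mod (Hh.inj h3)
              have h5 : (s + 2 * a - j + j) % (2 * a) = (s + j) % (2 * a) :=
                Nat.ModEq.add_right j h4
              rw [e1, Nat.add_mod_right] at h5
              have h6 : 0 % (2 * a) = j % (2 * a) := by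
                have : (s + 0) % (2 * a) = (s + j) % (2 * a) := by simpa using h5
                exact Nat.ModEq.add_left_cancel' s this
              rw [Nat.zero_mod, Nat.mod_eq_of_lt hj.2] at h6
              omega
            omega) (by
            have e1 : s + 2 * a - j + j = s + 2 * a := by omega
            rw [e1, H.per]
            have h1 := hs1 (s + 2 * a + j)
            omega)
        refine ⟨(s + 2 * a - j + i) % (2 * a), Nat.mod_lt _ hp, fun _ _ => ?_⟩
        have em : ∀ r, e ((s + 2 * a - j + i) % (2 * a) + r) = e (s + 2 * a - j + i + r) := by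
          intro r
          rw [← H.mod ((s + 2 * a - j + i) % (2 * a) + r), ← H.mod (s + 2 * a - j + i + r)]
          rw [Nat.mod_add_mod]
        have em0 := em 0
        simp only [add_zero] at em0
        rw [em0, em j, em 1]
        have em2 := em (j + 1)
        rw [← add_assoc] at em2
        rw [em2]
        refine ⟨hi2, ?_⟩
        have e3 : s + 2 * a - j + i + (j + 1) = s + 2 * a - j + (i + 1) + j := by ring
        have e4 : s + 2 * a - j + i + 1 = s + 2 * a - j + (i + 1) := by ring
        rw [e3, e4]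
        have h7 : h (e (s + 2 * a - j + (i + 1))) ≠ h (e (s + 2 * a - j + (i + 1) + j)) := by
          intro h3
          have h4 := H.eq_mod (Hh.inj h3)
          have h6 : 0 % (2 * a) = j % (2 * a) := by
            have : (s + 2 * a - j + (i + 1) + 0) % (2 * a) =
              (s + 2 * a - j + (i + 1) + j) % (2 * a) := by simpa using h4
            exact Nat.ModEq.add_left_cancel' _ this
          rw [Nat.zero_mod, Nat.mod_eq_of_lt hj.2] at h6
          omega
        omega
      · exact ⟨0, hp, fun h1 h2 => absurd ⟨h1, h2⟩ hj⟩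
    choose t ht1 ht2 using key
    refine LEN_T_ge (2 * a - 1) (fun j => (e (t (j + 1)), e (t (j + 1) + (j + 1)))) ?_ ?_
    · intro j hj
      obtain ⟨h1, h2⟩ := ht2 (j + 1) (by omega) (by omega)
      refine ⟨hX _, hX _, h1, ?_⟩
      simp only
      rw [← H.step, ← H.step]
      exact h2
    · intro j1 h1 j2 h2 h12
      simp only [Prod.mk.injEq] at h12
      have h3 := H.inj _ _ (ht1 _) (ht1 _) h12.1
      have h4 := H.eq_mod h12.2
      rw [h3] at h4
      have h5 : (j1 + 1) % (2 * a) = (j2 + 1) % (2 * a) := Nat.ModEq.add_left_cancel' _ h4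
      rw [Nat.mod_eq_of_lt (by omega), Nat.mod_eq_of_lt (by omega)] at h5
      omega
  have hB : 1 ≤ ∑ x ∈ X, LEN_nu h w x := by
    obtain ⟨i, hi1, hi2, hi3⟩ := LEN_ivt (fun i => 0 < h (e (s + i))) a (by simpa using hs3) (by
      rw [hs4]
      omega)
    have h1 : LEN_nu h w (e (s + i)) = 1 := by
      unfold LEN_nu
      rw [if_pos]
      refine ⟨hi2, ?_⟩
      rw [← H.step]
      have e1 : s + i + 1 = s + (i + 1) := by ring
      rw [e1]
      have := Hh.ne_zero (e (s + (i + 1)))
      omega
    calc 1 = LEN_nu h w (e (s + i)) := h1.symm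
      _ ≤ _ := Finset.single_le_sum (f := fun x => LEN_nu h w x) (fun x _ => Nat.zero_le _)
        (hX (s + i))
  omega

/-! ### summation over the blocks -/

theorem LEN_T_union_left (h : Fin n × Bool → ℤ) (w : Equiv.Perm (Fin n × Bool))
    (X X' Y : Finset (Fin n × Bool)) (hd : Disjoint X X') :
    LEN_T h w (X ∪ X') Y = LEN_T h w X Y + LEN_T h w X' Y := by
  unfold LEN_T
  rw [Finset.sum_union hd]

theorem LEN_T_union_right (h : Fin n × Bool → ℤ) (w : Equiv.Perm (Fin n × Bool))
    (X Y Y' : Finset (Fin n × Bool)) (hd : Disjoint Y Y') :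
    LEN_T h w X (Y ∪ Y') = LEN_T h w X Y + LEN_T h w X Y' := by
  unfold LEN_T
  rw [← Finset.sum_add_distrib]
  apply Finset.sum_congr rfl
  intro x _
  rw [Finset.sum_union hd]

/-- points with coordinate in `[k, k + a)` -/
def LEN_R (n k a : ℕ) : Finset (Fin n × Bool) :=
  Finset.univ.filter (fun x => k ≤ x.1.val ∧ x.1.val < k + a)

theorem LEN_R_add (k a b : ℕ) : LEN_R n k (a + b) = LEN_R n k a ∪ LEN_R n (k + a) b := by
  ext x
  simp only [LEN_R, Finset.mem_filter, Finset.mem_univ, true_and, Finset.mem_union]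
  omega

theorem LEN_R_disj (k a b : ℕ) : Disjoint (LEN_R n k a) (LEN_R n (k + a) b) := by
  rw [Finset.disjoint_left]
  intro x hx hx'
  simp only [LEN_R, Finset.mem_filter, Finset.mem_univ, true_and] at hx hx'
  omega

theorem LEN_mem_R {k a : ℕ} {x : Fin n × Bool} :
    x ∈ LEN_R n k a ↔ k ≤ x.1.val ∧ x.1.val < k + a := by
  simp [LEN_R]

theorem LEN_cross (h : Fin n × Bool → ℤ) (Hh : LEN_Odd h) (w : Equiv.Perm (Fin n × Bool))
    (e : ℕ → Fin n × Bool) (a : ℕ) (H : LEN_Cy w e a) (X : Finset (Fin n × Bool))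
    (hX : ∀ t, e t ∈ X) (l : List ℕ) : ∀ k, (∀ x ∈ X, x.1.val < k) → k + l.sum ≤ n →
    (∀ b ∈ l, a ≤ b) → LEN_Blk w k l →
    2 * a * l.length ≤ LEN_T h w X (LEN_R n k l.sum) ∧
    2 * a * l.length ≤ LEN_T h w (LEN_R n k l.sum) X := by
  induction l with
  | nil => intro k _ _ _ _; simp
  | cons b l ih =>
    intro k hk hs hb hB
    rw [List.sum_cons] at hs ⊢
    obtain ⟨B1, B2, B3⟩ := hB
    have hab : a ≤ b := hb b (by simp)
    have hb1 : 1 ≤ b := le_trans H.pos hab
    obtain ⟨i1, i2⟩ := ih (k + b) (fun x hx => by have := hk x hx; omega) (by omega)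
      (fun c hc => hb c (by simp [hc])) B3
    have hcy := LEN_e_cy w k b (by omega) hb1 B1 B2
    have hmem : ∀ t, LEN_e k b (by omega) hb1 t ∈ LEN_R n k b := by
      intro t
      rw [LEN_mem_R]
      exact LEN_e_mem k b (by omega) hb1 t
    have hd : Disjoint X (LEN_R n k b) := by
      rw [Finset.disjoint_left]
      intro x hx hx'
      rw [LEN_mem_R] at hx'
      have := hk x hx
      omega
    have t1 := LEN_two h Hh w e _ a b H hcy X (LEN_R n k b) hX hmem hd
    have t2 := LEN_two h Hh w _ e b a hcy H (LEN_R n k b) X hmem hX hd.symm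
    rw [min_eq_left (by omega)] at t1
    rw [min_eq_right (by omega)] at t2
    rw [LEN_R_add, LEN_T_union_right _ _ _ _ _ (LEN_R_disj k b l.sum),
      LEN_T_union_left _ _ _ _ _ (LEN_R_disj k b l.sum), List.length_cons]
    have e1 : 2 * a * (l.length + 1) = 2 * a + 2 * a * l.length := by ring
    rw [e1]
    omega

/-- twice the length of the standard word -/
def LEN_F : List ℕ → ℕ
  | [] => 0
  | a :: l => 2 * a + 4 * a * l.length + LEN_F l

theorem LEN_lower (h : Fin n × Bool → ℤ) (Hh : LEN_Odd h) (w : Equiv.Perm (Fin n × Bool))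
    (l : List ℕ) (hl : ∀ a ∈ l, 1 ≤ a) (hs : l.Pairwise (· ≤ ·)) : ∀ k, k + l.sum ≤ n →
    LEN_Blk w k l → LEN_F l ≤ LEN_T h w (LEN_R n k l.sum) (LEN_R n k l.sum) +
      ∑ x ∈ LEN_R n k l.sum, LEN_nu h w x := by
  induction l with
  | nil => intro k _ _; simp [LEN_F]
  | cons a l ih =>
    intro k hk hB
    rw [List.sum_cons] at hk ⊢
    obtain ⟨B1, B2, B3⟩ := hB
    have ha : 1 ≤ a := hl a (by simp)
    obtain ⟨s1, s2⟩ := List.pairwise_cons.1 hs
    have i1 := ih (fun b hb => hl b (by simp [hb])) s2 (k + a) (by omega) B3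
    have hcy := LEN_e_cy w k a (by omega) ha B1 B2
    have hmem : ∀ t, LEN_e k a (by omega) ha t ∈ LEN_R n k a := by
      intro t
      rw [LEN_mem_R]
      exact LEN_e_mem k a (by omega) ha t
    have h1 := LEN_one h Hh w _ a hcy (LEN_R n k a) hmem
    obtain ⟨c1, c2⟩ := LEN_cross h Hh w _ a hcy (LEN_R n k a) hmem l (k + a)
      (fun x hx => (LEN_mem_R.1 hx).2) (by omega) s1 B3
    rw [LEN_R_add, LEN_T_union_right _ _ _ _ _ (LEN_R_disj k a l.sum),
      LEN_T_union_left _ _ _ _ _ (LEN_R_disj k a l.sum),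
      LEN_T_union_left _ _ _ _ _ (LEN_R_disj k a l.sum),
      Finset.sum_union (LEN_R_disj k a l.sum)]
    have e1 : LEN_F (a :: l) = 2 * a + 4 * a * l.length + LEN_F l := rfl
    have e2 : 4 * a * l.length = 2 * a * l.length + 2 * a * l.length := by ring
    rw [e1, e2]
    omega

theorem LEN_stdWord_length (l : List ℕ) (hl : ∀ a ∈ l, 1 ≤ a) : ∀ k,
    2 * (stdWord k l).length = LEN_F l + 4 * k * l.length := by
  induction l with
  | nil => intro k; simp [stdWord, LEN_F]
  | cons a l ih =>
    intro k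
    have ha : 1 ≤ a := hl a (by simp)
    have i1 := ih (fun b hb => hl b (by simp [hb])) (k + a)
    have e1 : (stdWord k (a :: l)).length = (2 * k + a) + (stdWord (k + a) l).length := by
      simp only [stdWord, blockWord, List.length_append, List.length_reverse, List.length_range,
        List.length_range']
      omega
    have e2 : LEN_F (a :: l) = 2 * a + 4 * a * l.length + LEN_F l := rfl
    rw [e1, e2, Nat.mul_add, i1, List.length_cons]
    ring

theorem LEN_word_lt (l : List ℕ) (hl : ∀ a ∈ l, 1 ≤ a) : ∀ k, k + l.sum ≤ n →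
    ∀ i ∈ stdWord k l, i < n := by
  induction l with
  | nil => intro k _ i hi; simp [stdWord] at hi
  | cons a l ih =>
    intro k hk i hi
    rw [List.sum_cons] at hk
    have ha : 1 ≤ a := hl a (by simp)
    simp only [stdWord, blockWord, List.mem_append, List.mem_reverse, List.mem_range,
      List.mem_range'_1] at hi
    rcases hi with (hi | hi) | hi
    · omega
    · omega
    · exact ih (fun b hb => hl b (by simp [hb])) (k + a) (by omega) i hi

theorem LEN_lift (l : List ℕ) (hl : ∀ i ∈ l, i < n) :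
    ∃ l' : List (Fin n), l'.length = l.length ∧ (l'.map (gen n)).prod = (l.map (g n)).prod := by
  induction l with
  | nil => exact ⟨[], rfl, rfl⟩
  | cons a l ih =>
    obtain ⟨l', h1, h2⟩ := ih (fun i hi => hl i (by simp [hi]))
    refine ⟨⟨a, hl a (by simp)⟩ :: l', by simp [h1], ?_⟩
    rw [List.map_cons, List.prod_cons, List.map_cons, List.prod_cons, h2]
    congr 1
    unfold g
    rw [dif_pos (hl a (by simp))]

end LENa

theorem LEN (hG : GEN_stmt) : LEN_stmt := by
  intro n l hP
  obtain ⟨hl, hs, hsum⟩ := hP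
  have hup : len (std n l) ≤ (stdWord 0 l).length := by
    obtain ⟨l', h1, h2⟩ := LEN_lift (n := n) (stdWord 0 l)
      (LEN_word_lt l hl 0 (by omega))
    unfold len
    exact Nat.sInf_le ⟨l', h1, h2⟩
  have hlow : ∀ u : W n, (stdWord 0 l).length ≤ len (u * std n l * u⁻¹) := by
    intro u
    have hne : {k | ∃ l' : List (Fin n), l'.length = k ∧
        (l'.map (gen n)).prod = u * std n l * u⁻¹}.Nonempty := by
      obtain ⟨l', h1⟩ := hG n (u * std n l * u⁻¹)
      exact ⟨l'.length, l', rfl, h1⟩
    obtain ⟨l', h1, h2⟩ := Nat.sInf_mem hne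
    have h3 := LEN_inv_word l'
    rw [h2] at h3
    have h4 : (((u * std n l * u⁻¹ : W n)) : Equiv.Perm (Fin n × Bool)) =
        (u : Equiv.Perm (Fin n × Bool)) * LEN_w n (stdWord 0 l) *
          (u : Equiv.Perm (Fin n × Bool))⁻¹ := by
      rw [Subgroup.coe_mul, Subgroup.coe_mul, Subgroup.coe_inv]
      rfl
    rw [h4, LEN_inv_conj] at h3
    have hodd : LEN_Odd (fun x => LEN_pos ((u : Equiv.Perm (Fin n × Bool)) x)) := by
      refine ⟨?_, ?_⟩
      · intro x y hxy
        exact (u : Equiv.Perm (Fin n × Bool)).injective (LEN_pos_odd.inj hxy)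
      · intro x
        rw [mem_W.1 u.2 x, LEN_pos_odd.odd]
    obtain ⟨-, -, hB⟩ := LEN_std (n := n) l hl 0 (by omega)
    have h5 := LEN_lower _ hodd (LEN_w n (stdWord 0 l)) l hl hs 0 (by omega) hB
    have h6 : LEN_R n 0 l.sum = Finset.univ := by
      ext x
      rw [LEN_mem_R]
      have := x.1.isLt
      simp only [Finset.mem_univ, iff_true]
      omega
    rw [h6] at h5
    have h7 := LEN_stdWord_length l hl 0
    have h8 : LEN_inv (fun x => LEN_pos ((u : Equiv.Perm (Fin n × Bool)) x))
        (LEN_w n (stdWord 0 l)) = LEN_T (fun x => LEN_pos ((u : Equiv.Perm (Fin n × Bool)) x))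
        (LEN_w n (stdWord 0 l)) Finset.univ Finset.univ +
        ∑ x, LEN_nu (fun x => LEN_pos ((u : Equiv.Perm (Fin n × Bool)) x))
          (LEN_w n (stdWord 0 l)) x := rfl
    have h9 : len (u * std n l * u⁻¹) = l'.length := by
      unfold len
      exact h1.symm
    rw [h9]
    simp only [mul_zero, zero_mul, add_zero] at h7
    omega
  have h1 : len (std n l) = (stdWord 0 l).length := by
    apply le_antisymm hup
    have := hlow 1
    simpa using this
  refine ⟨h1, ?_⟩
  intro u
  rw [h1]
  exact hlow u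

end Pool.Agent.helper27.PC
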